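import Pool.Agent.LTC.Defs

/-!
# Binary affine invariant codes
-/

set_option autoImplicit false

namespace Pool.Agent.LTCB

open Pool.Agent.LTC

/-- The binary code `C`, with the positions in the field `K`, is invariant under all maps
`x ↦ a * x + b` of the positions, `a ≠ 0`. -/
def AffineInvariant {K : Type} [Field K] (C : Submodule (ZMod 2) (K → ZMod 2)) : Prop :=
  ∀ a b : K, a ≠ 0 → ∀ w ∈ C, (fun x => w (a * x + b)) ∈ C

/-- The statement of the question for `q` and binary affine invariant codes: there are a number
`q'` of queries and a soundness `s > 0`, depending only on `q`, such that for every finite field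
`K` of characteristic two every affine invariant binary code `C` with positions in `K`, whose dual
code is spanned by the dual words of weight at most `q`, is locally testable with `q'` queries and
soundness `s`. -/
def AffineTestable (q : ℕ) : Prop :=
  ∃ (q' : ℕ) (s : ℝ), 0 < s ∧ ∀ (K : Type) [Field K] [Fintype K] [CharP K 2]
    (C : Submodule (ZMod 2) (K → ZMod 2)), AffineInvariant C →
      Submodule.span (ZMod 2) (lowWeightDual C q) = dualCode C → LocallyTestable C q' s

/-- The statement of the question for `q` and all doubly transitive binary codes. -/
def BinaryTestable (q : ℕ) : Prop :=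
  ∃ (q' : ℕ) (s : ℝ), 0 < s ∧ ∀ (ι : Type) [Fintype ι] (C : Submodule (ZMod 2) (ι → ZMod 2)),
    DoublyTransitiveCode C → Submodule.span (ZMod 2) (lowWeightDual C q) = dualCode C →
      LocallyTestable C q' s

end Pool.Agent.LTCB
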