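import Pool.Agent.LTCB.Far
import Pool.Agent.LTCB.Defs

/-!
# Codes with dual words of weight six which are not testable
-/

set_option autoImplicit false

namespace Pool.Agent.LTCB

open Finset Pool.Agent.LTC

theorem exists_psi (K : Type) [Field K] [Algebra (ZMod 2) K] :
    ∃ ψ : K →ₗ[ZMod 2] ZMod 2, ∃ x, ψ x ≠ 0 := by
  have h : (1 : K) ∉ (⊥ : Submodule (ZMod 2) K) := by
    rw [Submodule.mem_bot]
    exact one_ne_zero
  obtain ⟨ψ, hψ, -⟩ := Submodule.exists_le_ker_of_notMem h
  exact ⟨ψ, 1, hψ⟩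

theorem exists_affine_not_testable (q : ℕ) (s : ℝ) (hs : 0 < s) :
    ∃ (K : Type) (_ : Field K) (_ : Fintype K) (_ : CharP K 2)
      (C : Submodule (ZMod 2) (K → ZMod 2)), AffineInvariant C ∧
        Submodule.span (ZMod 2) (lowWeightDual C 6) = dualCode C ∧ ¬ LocallyTestable C q s := by
  classical
  have : Fact (Nat.Prime 2) := ⟨Nat.prime_two⟩
  obtain ⟨t, ht⟩ := exists_nat_gt ((q : ℝ) / (s * (1 / 12)))
  have ht' : (q : ℝ) < s * (1 / 12) * t := by
    rw [div_lt_iff₀ (by positivity)] at ht
    linarith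
  -- pairwise coprime odd numbers
  let n : Fin t → ℕ := fun i => Nat.fermatNumber (i + 1)
  have hn : ∀ i, 5 ≤ n i := by
    intro i
    have h1 : (2 : ℕ) ^ 2 ≤ 2 ^ 2 ^ ((i : ℕ) + 1) :=
      Nat.pow_le_pow_right (by norm_num) (by
        calc 2 = 2 ^ 1 := by norm_num
          _ ≤ 2 ^ ((i : ℕ) + 1) := Nat.pow_le_pow_right (by norm_num) (by omega))
    have h2 : n i = 2 ^ 2 ^ ((i : ℕ) + 1) + 1 := rfl
    omega
  have hodd : ∀ i, Odd (n i) := by
    intro i
    have h2 : n i = 2 ^ 2 ^ ((i : ℕ) + 1) + 1 := rfl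
    rw [h2]
    refine Even.add_one ?_
    rw [Nat.even_pow]
    exact ⟨even_two, by positivity⟩
  have hcop : Pairwise (Function.onFun Nat.Coprime n) := by
    intro i j hij
    exact Nat.coprime_fermatNumber_fermatNumber fun h => hij (Fin.ext (by omega))
  have hCRT : ∀ i : Fin t, ∃ m : ℕ, m % n i = 1 ∧ ∀ l, l ≠ i → m % n l = 0 := by
    intro i
    obtain ⟨m, hm⟩ := (Nat.chineseRemainderOfFinset (fun l => if l = i then 1 else 0) n
      Finset.univ (fun l _ => by have := hn l; omega) (fun a _ b _ hab => hcop hab))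
    refine ⟨m, ?_, fun l hl => ?_⟩
    · have h := hm i (Finset.mem_univ i)
      rw [if_pos rfl, Nat.ModEq] at h
      rw [h, Nat.mod_eq_of_lt]
      have := hn i; omega
    · have h := hm l (Finset.mem_univ l)
      rw [if_neg hl, Nat.ModEq] at h
      rw [h, Nat.zero_mod]
  choose e he1 he0 using hCRT
  have he : IsCRT n e := ⟨fun i => by have := hn i; omega, he1, he0⟩
  have hprod : (∏ i, n i) ≠ 0 := Finset.prod_ne_zero_iff.2 fun i _ => by have := hn i; omega
  let K := GaloisField 2 (∏ i, n i)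
  have hN : Module.finrank (ZMod 2) K = ∏ i, n i := GaloisField.finrank 2 hprod
  let _ : Fintype K := Fintype.ofFinite K
  obtain ⟨ψ, hψ⟩ := exists_psi K
  refine ⟨K, inferInstance, inferInstance, inferInstance, code6 n K,
    fun a b ha w hw => affine_code6 hw ha b, span_code6, ?_⟩
  refine not_locallyTestable_of_family' (code6 n K) q s (1 / 12) hs t (fun k => rr ψ e k) ?_
    (fun I hI => undetected he ψ q I hI) ht'
  intro k c hc
  obtain ⟨d, hd, h⟩ := exists_relDist (code6 n K) (c + rr ψ e k)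
  rw [h]
  have hcard : (0 : ℝ) < Fintype.card K := by exact_mod_cast Fintype.card_pos
  rw [div_le_div_iff₀ (by norm_num) hcard, one_mul]
  have h1 := card_far he hn hodd hN ψ hψ k (Submodule.sub_mem _ hd hc)
  have h2 : hammingDist (c + rr ψ e k) d =
      (Finset.univ.filter fun x => (d - c) x ≠ rr ψ e k x).card := by
    unfold hammingDist
    congr 1
    ext x
    simp only [Finset.mem_filter, Finset.mem_univ, true_and, Pi.add_apply, Pi.sub_apply, ne_eq,
      sub_eq_iff_eq_add]
    rw [add_comm (rr ψ e k x), eq_comm]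
  rw [h2]
  have h3 : (Fintype.card K : ℝ) ≤ 12 *
      ((Finset.univ.filter fun x => (d - c) x ≠ rr ψ e k x).card : ℝ) := by exact_mod_cast h1
  linarith

/-- Affine invariant codes are doubly transitive. -/
theorem AffineInvariant.doublyTransitive {K : Type} [Field K]
    {C : Submodule (ZMod 2) (K → ZMod 2)} (hC : AffineInvariant C) : DoublyTransitiveCode C := by
  let G : Subgroup (Equiv.Perm K) :=
    { carrier := {π | ∃ a b : K, a ≠ 0 ∧ ∀ i, π i = a * i + b}
      mul_mem' := by
        rintro π ρ ⟨a, b, ha, h⟩ ⟨a', b', ha', h'⟩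
        refine ⟨a * a', a * b' + b, mul_ne_zero ha ha', fun i => ?_⟩
        rw [Equiv.Perm.mul_apply, h, h']
        ring
      one_mem' := ⟨1, 0, one_ne_zero, fun i => by simp⟩
      inv_mem' := by
        rintro π ⟨a, b, ha, h⟩
        refine ⟨a⁻¹, -(a⁻¹ * b), inv_ne_zero ha, fun i => ?_⟩
        have h1 := h (π⁻¹ i)
        have h2 : π (π⁻¹ i) = i := π.apply_symm_apply i
        rw [h2] at h1
        have h3 : a * π⁻¹ i = i - b := by linear_combination -h1
        calc π⁻¹ i = a⁻¹ * (a * π⁻¹ i) := (inv_mul_cancel_left₀ ha _).symm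
          _ = a⁻¹ * (i - b) := by rw [h3]
          _ = _ := by ring }
  refine ⟨G, ?_, ?_⟩
  · rintro π ⟨a, b, ha, h⟩ w hw
    simp only [h]
    exact hC a b ha w hw
  · intro i j i' j' hij hij'
    have hx : i - j ≠ 0 := sub_ne_zero.2 hij
    have hx' : i' - j' ≠ 0 := sub_ne_zero.2 hij'
    set a := (i' - j') / (i - j) with ha
    have ha0 : a ≠ 0 := div_ne_zero hx' hx
    let π : Equiv.Perm K :=
      { toFun := fun l => a * l + (i' - a * i)
        invFun := fun l => a⁻¹ * (l - (i' - a * i))
        left_inv := by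
          intro l
          simp only
          rw [add_sub_cancel_right, inv_mul_cancel_left₀ ha0]
        right_inv := by
          intro l
          simp only
          rw [mul_inv_cancel_left₀ ha0, sub_add_cancel] }
    refine ⟨π, ⟨a, i' - a * i, ha0, fun l => rfl⟩, ?_, ?_⟩
    · change a * i + (i' - a * i) = i'
      ring
    · change a * j + (i' - a * i) = j'
      have : a * (i - j) = i' - j' := by rw [ha, div_mul_cancel₀ _ hx]
      linear_combination -this

end Pool.Agent.LTCB
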