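import Pool.Agent.LTCB.Cube

/-!
# Functions of degree at most two

A function of degree at most two which is not zero is not zero on a quarter of the space.
-/

set_option autoImplicit false

namespace Pool.Agent.LTCB

open Finset

variable {V : Type} [AddCommGroup V] [Module (ZMod 2) V]

/-- the cube sum in coordinates -/
theorem cube_expand (f : V → ZMod 2) (x a b c : V) : cube f x (a, b, c) =
    f x + f (x + c) + f (x + b) + f (x + b + c) + (f (x + a) + f (x + a + c) +
      f (x + a + b) + f (x + a + b + c)) := by
  have h : ∀ g : ZMod 2 → ZMod 2, ∑ i, g i = g 0 + g 1 := fun g => Fin.sum_univ_two g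
  unfold cube dot
  rw [Fintype.sum_prod_type, h, Fintype.sum_prod_type, h, h, h, Fintype.sum_prod_type, h, h, h]
  simp only [zero_smul, one_smul, zero_add, add_zero, add_assoc]

/-- the derivative -/
def D (a : V) (f : V → ZMod 2) (x : V) : ZMod 2 := f x + f (x + a)

omit [Module (ZMod 2) V] in
theorem D_comm (a b : V) (f : V → ZMod 2) : D a (D b f) = D b (D a f) := by
  funext x
  unfold D
  rw [add_right_comm x a b]
  ring

theorem cube_eq_D (f : V → ZMod 2) (x a b c : V) : cube f x (a, b, c) = D a (D b (D c f)) x := by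
  rw [cube_expand]
  unfold D
  ring

theorem add_self_eq (v : V) : v + v = 0 := by
  have h : (2 : ZMod 2) = 0 := rfl
  rw [← two_smul (ZMod 2) v, h, zero_smul]

section Count

variable [Fintype V]

theorem card_D_le (h : V → ZMod 2) (a : V) :
    (univ.filter fun x => D a h x ≠ 0).card ≤ 2 * (univ.filter fun x => h x ≠ 0).card := by
  classical
  have h1 : (univ.filter fun x => h (x + a) ≠ 0).card = (univ.filter fun x => h x ≠ 0).card := by
    refine card_bij' (fun x _ => x + a) (fun x _ => x - a) ?_ ?_ ?_ ?_
    · intro x hx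
      simpa using hx
    · intro x hx
      simp only [mem_filter, mem_univ, true_and, sub_add_cancel] at hx ⊢
      exact hx
    · intro x _
      simp
    · intro x _
      simp
  have h2 : (univ.filter fun x => D a h x ≠ 0) ⊆
      (univ.filter fun x => h x ≠ 0) ∪ univ.filter fun x => h (x + a) ≠ 0 := by
    intro x hx
    simp only [mem_filter, mem_univ, true_and, mem_union] at hx ⊢
    by_contra hcon
    push Not at hcon
    apply hx
    rw [D, hcon.1, hcon.2, add_zero]
  have h3 := (card_le_card h2).trans (card_union_le _ _)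
  omega

omit [Module (ZMod 2) V] in
theorem card_of_deg_zero (h : V → ZMod 2) (hD : ∀ a x, D a h x = 0) (hne : ∃ x, h x ≠ 0) :
    Fintype.card V ≤ (univ.filter fun x => h x ≠ 0).card := by
  obtain ⟨x₀, h₀⟩ := hne
  have hz : ∀ z w : ZMod 2, z + w = 0 → w = z := by decide
  have : (univ.filter fun x => h x ≠ 0) = univ := by
    refine filter_true_of_mem fun x _ => ?_
    have h1 := hz _ _ (hD (x - x₀) x₀)
    rw [add_sub_cancel] at h1
    rwa [h1]
  rw [this, card_univ]

theorem card_of_deg_one (h : V → ZMod 2) (hD : ∀ a b x, D a (D b h) x = 0)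
    (hne : ∃ x, h x ≠ 0) : Fintype.card V ≤ 2 * (univ.filter fun x => h x ≠ 0).card := by
  by_cases h1 : ∃ b x, D b h x ≠ 0
  · obtain ⟨b, hb⟩ := h1
    exact (card_of_deg_zero (D b h) (fun a x => hD a b x) hb).trans (card_D_le h b)
  · push Not at h1
    have := card_of_deg_zero h h1 hne
    omega

theorem card_of_deg_two (h : V → ZMod 2) (hD : ∀ a b c x, D a (D b (D c h)) x = 0)
    (hne : ∃ x, h x ≠ 0) : Fintype.card V ≤ 4 * (univ.filter fun x => h x ≠ 0).card := by
  by_cases h1 : ∃ c x, D c h x ≠ 0
  · obtain ⟨c, hc⟩ := h1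
    have h2 := card_of_deg_one (D c h) (fun a b x => hD a b c x) hc
    have h3 := card_D_le h c
    omega
  · push Not at h1
    have := card_of_deg_zero h h1 hne
    omega

end Count

end Pool.Agent.LTCB
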