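import Pool.Agent.LTC.Basic
import Pool.Agent.LTCB.Defs
import Pool.Agent.LTCB.Deg

/-!
# Binary affine invariant codes with dual words of weight at most five
-/

set_option autoImplicit false

namespace Pool.Agent.LTCB

open Finset Pool.Agent.LTC

variable {K : Type} [Field K] {C : Submodule (ZMod 2) (K → ZMod 2)}

section Basic

theorem AffineInvariant.shift (hC : AffineInvariant C) {f : K → ZMod 2} (hf : f ∈ C) (b : K) :
    (fun x => f (x + b)) ∈ C := by
  have := hC 1 b one_ne_zero f hf
  simpa using this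

theorem AffineInvariant.scale (hC : AffineInvariant C) {f : K → ZMod 2} (hf : f ∈ C) {a : K}
    (ha : a ≠ 0) : (fun x => f (a * x)) ∈ C := by
  have := hC a 0 ha f hf
  simpa using this

theorem AffineInvariant.D_mem (hC : AffineInvariant C) {f : K → ZMod 2} (hf : f ∈ C) (a : K) :
    D a f ∈ C := C.add_mem hf (hC.shift hf a)

theorem zmod_add_self : ∀ z : ZMod 2, z + z = 0 := by decide

theorem zmod_eq_of_add : ∀ z w : ZMod 2, z + w = 0 → w = z := by decide

theorem zmod_zero_or_one : ∀ z : ZMod 2, z = 0 ∨ z = 1 := by decide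

end Basic

variable [Fintype K] [CharP K 2]

/-- A fixed vector modulo an invariant subspace. -/
theorem exists_fixed (hC : AffineInvariant C) (Z : Submodule (ZMod 2) (K → ZMod 2))
    (hZ : ∀ z ∈ Z, ∀ a, D a z ∈ Z) (h : ¬ C ≤ Z) : ∃ f ∈ C, f ∉ Z ∧ ∀ a, D a f ∈ Z := by
  classical
  obtain ⟨f₀, hf₀, hf₀'⟩ := Set.not_subset.1 h
  obtain ⟨f, hf, hmax⟩ := exists_max_image (univ.filter fun f : K → ZMod 2 => f ∈ C ∧ f ∉ Z)
    (fun f => (univ.filter fun a => D a f ∈ Z).card)
    ⟨f₀, mem_filter.2 ⟨mem_univ _, hf₀, hf₀'⟩⟩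
  obtain ⟨-, hfC, hfZ⟩ := mem_filter.1 hf
  refine ⟨f, hfC, hfZ, fun a => ?_⟩
  by_contra ha
  have h1 := hmax (D a f) (mem_filter.2 ⟨mem_univ _, hC.D_mem hfC a, ha⟩)
  have h2 : (univ.filter fun b => D b f ∈ Z) ⊂ univ.filter fun b => D b (D a f) ∈ Z := by
    rw [ssubset_iff_of_subset]
    · refine ⟨a, ?_, ?_⟩
      · refine mem_filter.2 ⟨mem_univ _, ?_⟩
        have h3 : D a (D a f) = 0 := by
          funext x
          have h4 : x + a + a = x := by rw [add_assoc, CharTwo.add_self_eq_zero, add_zero]
          have h5 := zmod_add_self (f x + f (x + a))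
          simp only [D, h4, Pi.zero_apply]
          rw [← h5]
          ring
        rw [h3]
        exact Z.zero_mem
      · intro h3
        exact ha (mem_filter.1 h3).2
    · intro b hb
      refine mem_filter.2 ⟨mem_univ _, ?_⟩
      rw [D_comm]
      exact hZ _ (mem_filter.1 hb).2 a
  exact absurd (card_lt_card h2) (not_lt.2 h1)

/-- A code that is not zero contains the constant word. -/
theorem one_mem (hC : AffineInvariant C) (h : C ≠ ⊥) : (fun _ => 1) ∈ C := by
  obtain ⟨f, hf, hf0, hD⟩ := exists_fixed hC ⊥ (by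
    intro z hz a
    rw [Submodule.mem_bot] at hz ⊢
    rw [hz]
    funext x
    simp [D]) (fun h' => h (le_bot_iff.1 h'))
  have h1 : ∀ x, f x = f 0 := by
    intro x
    have h2 := congrFun ((Submodule.mem_bot _).1 (hD x)) 0
    simp only [D, zero_add, Pi.zero_apply] at h2
    exact zmod_eq_of_add _ _ h2
  have h2 : f 0 = 1 := by
    rcases zmod_zero_or_one (f 0) with h3 | h3
    · exfalso
      apply hf0
      rw [Submodule.mem_bot]
      funext x
      rw [h1 x, h3]
      rfl
    · exact h3
  have h3 : f = fun _ => 1 := by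
    funext x
    rw [h1 x, h2]
  rwa [← h3]

/-- the constant functions -/
def consts (K : Type) : Submodule (ZMod 2) (K → ZMod 2) where
  carrier := {f | ∃ c, ∀ x, f x = c}
  zero_mem' := ⟨0, fun _ => rfl⟩
  add_mem' := by
    rintro f g ⟨c, hc⟩ ⟨d, hd⟩
    exact ⟨c + d, fun x => by rw [Pi.add_apply, hc, hd]⟩
  smul_mem' := by
    rintro a f ⟨c, hc⟩
    exact ⟨a * c, fun x => by rw [Pi.smul_apply, hc, smul_eq_mul]⟩

/-- A code with words that are not constant contains a word `h` with
`h (x + a) = h x + μ a`, `μ` additive and not zero. -/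
theorem exists_linear (hC : AffineInvariant C) (h : ¬ C ≤ consts K) :
    ∃ f ∈ C, ∃ μ : K → ZMod 2, (∀ x, f x = f 0 + μ x) ∧ (∀ x y, μ (x + y) = μ x + μ y) ∧
      ∃ x, μ x ≠ 0 := by
  obtain ⟨f, hf, hf0, hD⟩ := exists_fixed hC (consts K) (by
    rintro z ⟨c, hc⟩ a
    exact ⟨0, fun x => by rw [D, hc, hc]; exact zmod_add_self c⟩) h
  have h1 : ∀ x a, f (x + a) = f x + (f 0 + f a) := by
    intro x a
    obtain ⟨c, hc⟩ := hD a
    have h2 := hc x
    have h3 := hc 0
    simp only [D, zero_add] at h2 h3
    have h4 := zmod_add_self (f x)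
    linear_combination h2 - h3 - h4 
  refine ⟨f, hf, fun x => f 0 + f x, ?_, ?_, ?_⟩
  · intro x
    have h2 := zmod_add_self (f 0)
    linear_combination -h2
  · intro x y
    change f 0 + f (x + y) = f 0 + f x + (f 0 + f y)
    rw [h1]
    ring
  · by_contra hcon
    push Not at hcon
    exact hf0 ⟨f 0, fun x => zmod_eq_of_add _ _ (hcon x)⟩

/-- the sum of the positions of a dual word of weight four is zero -/
theorem sum_four (hC : AffineInvariant C) (h : ¬ C ≤ consts K) {x₁ x₂ x₃ x₄ : K}
    (hx : ∀ f ∈ C, f x₁ + f x₂ + f x₃ + f x₄ = 0) : x₁ + x₂ + x₃ + x₄ = 0 := by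
  obtain ⟨f, hf, μ, h1, h2, x, hμ⟩ := exists_linear hC h
  by_contra hs
  set s := x₁ + x₂ + x₃ + x₄ with hsdef
  have hx0 : x ≠ 0 := by
    rintro rfl
    have h3 := h2 0 0
    rw [add_zero, zmod_add_self] at h3
    exact hμ h3
  have h3 := hx _ (hC.scale hf (a := x / s) (div_ne_zero hx0 hs))
  apply hμ
  have h4 : x = x / s * x₁ + x / s * x₂ + x / s * x₃ + x / s * x₄ := by
    rw [← mul_add, ← mul_add, ← mul_add, ← hsdef, div_mul_cancel₀ _ hs]
  rw [h4, h2, h2, h2]
  rw [h1 (x / s * x₁), h1 (x / s * x₂), h1 (x / s * x₃), h1 (x / s * x₄)] at h3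
  have h5 := zmod_add_self (f 0)
  linear_combination h3 - 2 * h5

/-- the relation -/
def Rel (f : K → ZMod 2) (t x l : K) : Prop :=
  f x + f (x + l) + f (x + t * l) + f (x + l + t * l) = 0

/-- the parameters of the dual words of weight four -/
def TT (C : Submodule (ZMod 2) (K → ZMod 2)) : AddSubgroup K where
  carrier := {t | ∀ f ∈ C, ∀ x l, Rel f t x l}
  zero_mem' := by
    intro f _ x l
    have h1 := zmod_add_self (f x + f (x + l))
    simp only [Rel, zero_mul, add_zero]
    linear_combination h1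
  add_mem' := by
    intro s t hs ht f hf x l
    have h1 := hs f hf x l
    have h2 := ht f hf (x + s * l) l
    have h3 := zmod_add_self (f (x + s * l) + f (x + s * l + l))
    have e1 : x + (s + t) * l = x + s * l + t * l := by ring
    have e2 : x + l + (s + t) * l = x + s * l + l + t * l := by ring
    have e3 : x + l + s * l = x + s * l + l := by ring
    simp only [Rel, e1, e2, e3] at h1 h2 ⊢
    linear_combination h1 + h2 - h3
  neg_mem' := by
    intro t ht
    rw [CharTwo.neg_eq]
    exact ht

omit [Fintype K] in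
theorem mem_TT {t : K} : t ∈ TT C ↔ ∀ f ∈ C, ∀ x l, Rel f t x l := Iff.rfl

omit [Field K] [CharP K 2] in
/-- the weight of a dual word is even if the constant word is a codeword -/
theorem even_weight (h1 : (fun _ => 1) ∈ C) {u : K → ZMod 2} (hu : u ∈ dualCode C) :
    2 ∣ hammingNorm u := by
  have h2 := hu _ h1
  simp only [mul_one] at h2
  have h3 : ∑ x, u x = (hammingNorm u : ZMod 2) := by
    unfold hammingNorm
    rw [card_filter]
    push_cast
    refine sum_congr rfl fun x _ => ?_
    rcases zmod_zero_or_one (u x) with h | h <;> simp [h]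
  rw [h3] at h2
  exact (ZMod.natCast_eq_zero_iff _ _).1 h2

/-- If all dual words of weight at most five span, the relations with the parameters in `TT C`
characterise the code. -/
theorem mem_of_rel (hC : AffineInvariant C) (h1 : (fun _ => 1) ∈ C) (h : ¬ C ≤ consts K)
    (hspan : Submodule.span (ZMod 2) (lowWeightDual C 5) = dualCode C) {f : K → ZMod 2}
    (hf : ∀ t ∈ TT C, ∀ x l, Rel f t x l) : f ∈ C := by
  classical
  refine mem_of_span_eq hspan ?_
  rintro u ⟨hu, hw⟩
  set S := univ.filter fun i => u i ≠ 0 with hS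
  have hcard : S.card ≤ 5 := hw
  have heven : 2 ∣ S.card := even_weight h1 hu
  have hsum : ∀ g : K → ZMod 2, ∑ i, u i * g i = ∑ i ∈ S, g i := by
    intro g
    rw [hS, sum_filter]
    refine sum_congr rfl fun i _ => ?_
    rcases zmod_zero_or_one (u i) with h | h <;> simp [h]
  have hdual : ∀ g ∈ C, ∑ i ∈ S, g i = 0 := fun g hg => (hsum g).symm.trans (hu g hg)
  rw [hsum]
  have hcases : S.card = 0 ∨ S.card = 2 ∨ S.card = 4 := by omega
  rcases hcases with h0 | h2 | h4
  · rw [card_eq_zero] at h0
    rw [h0, sum_empty]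
  · -- weight two is impossible
    exfalso
    obtain ⟨x₁, x₂, hx, hS2⟩ := card_eq_two.1 h2
    apply h
    intro g hg
    refine ⟨g 0, fun y => ?_⟩
    by_cases hy : y = 0
    · rw [hy]
    have hne : x₂ - x₁ ≠ 0 := sub_ne_zero.2 hx.symm
    have h3 := hdual _ (hC (y / (x₂ - x₁)) (-(y / (x₂ - x₁) * x₁)) (div_ne_zero hy hne) g hg)
    rw [hS2, sum_pair hx] at h3
    have e1 : y / (x₂ - x₁) * x₁ + -(y / (x₂ - x₁) * x₁) = 0 := by ring
    have e2 : y / (x₂ - x₁) * x₂ + -(y / (x₂ - x₁) * x₁) = y := by
      have : y / (x₂ - x₁) * x₂ + -(y / (x₂ - x₁) * x₁) = y / (x₂ - x₁) * (x₂ - x₁) := by ring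
      rw [this, div_mul_cancel₀ _ hne]
    rw [e1, e2] at h3
    exact zmod_eq_of_add _ _ h3
  · have hne : S.Nonempty := card_pos.1 (by omega)
    obtain ⟨x₁, hx₁⟩ := hne
    have h3 : (S.erase x₁).card = 3 := by rw [card_erase_of_mem hx₁]; omega
    obtain ⟨x₂, x₃, x₄, h23, h24, h34, hS3⟩ := card_eq_three.1 h3
    have hx12 : x₁ ≠ x₂ := by
      rintro rfl
      have : x₁ ∈ S.erase x₁ := by rw [hS3]; simp
      exact notMem_erase _ _ this
    have hS4 : ∀ g : K → ZMod 2, ∑ i ∈ S, g i = g x₁ + g x₂ + g x₃ + g x₄ := by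
      intro g
      rw [← add_sum_erase S g hx₁, hS3, sum_insert (by simp [h23, h24]),
        sum_insert (by simp [h34]), sum_singleton]
      ring
    have hs := sum_four hC h (fun g hg => by rw [← hS4]; exact hdual g hg)
    have h2' : (2 : K) = 0 := CharTwo.two_eq_zero
    have hl : x₁ + x₂ ≠ 0 := by
      intro h0
      apply hx12
      linear_combination h0 - x₂ * h2'
    set t := (x₁ + x₃) / (x₁ + x₂) with ht
    have htl : t * (x₁ + x₂) = x₁ + x₃ := div_mul_cancel₀ _ hl
    have e2 : x₁ + (x₁ + x₂) = x₂ := by linear_combination x₁ * h2'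
    have e3 : x₁ + t * (x₁ + x₂) = x₃ := by rw [htl]; linear_combination x₁ * h2'
    have e4 : x₁ + (x₁ + x₂) + t * (x₁ + x₂) = x₄ := by
      rw [htl]
      linear_combination hs + (x₁ - x₄) * h2'
    have htT : t ∈ TT C := by
      intro g hg x l
      by_cases hl0 : l = 0
      · subst hl0
        have := zmod_add_self (g x + g x)
        simp only [Rel, mul_zero, add_zero]
        linear_combination this
      · set a := l / (x₁ + x₂) with ha
        have hal : a * (x₁ + x₂) = l := div_mul_cancel₀ _ hl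
        have h5 := hdual _ (hC a (x + a * x₁) (div_ne_zero hl0 hl) g hg)
        rw [hS4] at h5
        have f1 : a * x₁ + (x + a * x₁) = x := by linear_combination a * x₁ * h2'
        have f2 : a * x₂ + (x + a * x₁) = x + l := by linear_combination hal
        have f3 : a * x₃ + (x + a * x₁) = x + t * l := by
          rw [← hal]
          linear_combination -a * htl
        have f4 : a * x₄ + (x + a * x₁) = x + l + t * l := by
          rw [← hal]
          linear_combination a * hs - a * htl - a * (x₁ + x₂ + x₃) * h2' 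
        rw [f1, f2, f3, f4] at h5
        exact h5
    have h5 := hf t htT x₁ (x₁ + x₂)
    rw [Rel, e4, e3, e2] at h5
    rw [hS4]
    exact h5

/-- If there is a parameter which is not `0` or `1`, all words of the code have degree at most
two. -/
theorem cube_of_rel {t : K} (h0 : t ≠ 0) (h1 : t ≠ 1) {f : K → ZMod 2}
    (hf : ∀ x l, Rel f t x l) (y u v w : K) :
    f y + f (y + w) + f (y + v) + f (y + v + w) + (f (y + u) + f (y + u + w) +
      f (y + u + v) + f (y + u + v + w)) = 0 := by
  have h2 : (2 : K) = 0 := CharTwo.two_eq_zero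
  have h2' : (2 : ZMod 2) = 0 := rfl
  have ht1 : 1 + t ≠ 0 := by
    intro h
    apply h1
    linear_combination h - h2
  obtain ⟨a, rfl⟩ : ∃ a, w = t * a := ⟨w / t, by rw [mul_div_cancel₀ _ h0]⟩
  obtain ⟨c, rfl⟩ : ∃ c, u = (1 + t) * c := ⟨u / (1 + t), by rw [mul_div_cancel₀ _ ht1]⟩
  obtain ⟨x, rfl⟩ : ∃ x, y = x + a + c := ⟨y - a - c, by ring⟩
  have r : ∀ z l p q m : K, z + l = p → z + t * l = q → z + l + t * l = m →
      f z + f p + f q + f m = 0 := by
    rintro z l p q m rfl rfl rfl
    exact hf z l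
  have r1 := r x (a + c + v) (x + a + c + v) (x + t * a + t * c + t * v)
    (x + a + c + v + t * a + t * c + t * v) (by ring) (by ring) (by ring)
  have r2 := r (x + a + t * a) (c + v) (x + a + c + v + t * a) (x + a + t * a + t * c + t * v)
    (x + a + c + v + t * a + t * c + t * v) (by ring) (by ring) (by ring)
  have r3 := r x (a + c) (x + a + c) (x + t * a + t * c) (x + a + c + t * a + t * c)
    (by ring) (by ring) (by ring)
  have r4 := r (x + a + t * a) c (x + a + c + t * a) (x + a + t * a + t * c)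
    (x + a + c + t * a + t * c) (by ring) (by ring) (by ring)
  have r5 := r (x + t * c) a (x + a + t * c) (x + t * a + t * c) (x + a + t * a + t * c)
    (by ring) (by ring) (by ring)
  have r6 := r (x + t * c) (a + v) (x + a + t * c + v) (x + t * a + t * c + t * v)
    (x + a + v + t * a + t * c + t * v) (by ring) (by ring) (by ring)
  have r7 := r (x + a + t * a + t * c) v (x + a + t * a + t * c + v)
    (x + a + t * a + t * c + t * v) (x + a + v + t * a + t * c + t * v)
    (by ring) (by ring) (by ring)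
  have g : ∀ p q : K, p = q → f p = f q := fun p q h => by rw [h]
  have g3 := g (x + a + c + (1 + t) * c) (x + a + t * c) (by linear_combination c * h2)
  have g4 := g (x + a + c + (1 + t) * c + t * a) (x + a + t * a + t * c)
    (by linear_combination c * h2)
  have g5 := g (x + a + c + (1 + t) * c + v) (x + a + t * c + v) (by linear_combination c * h2)
  have g6 := g (x + a + c + (1 + t) * c + v + t * a) (x + a + t * a + t * c + v)
    (by linear_combination c * h2)
  rw [g3, g4, g5, g6]
  linear_combination r1 + r2 + r3 + r4 + r5 + r6 + r7 - (f x +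
    f (x + a + c + v + t * a + t * c + t * v) + f (x + a + t * a) +
    f (x + t * a + t * c + t * v) + f (x + a + t * a + t * c + t * v) + f (x + t * a + t * c) +
    f (x + a + c + t * a + t * c) + f (x + t * c) + f (x + a + v + t * a + t * c + t * v) +
    f (x + a + t * a + t * c)) * h2'

end Pool.Agent.LTCB
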