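import Mathlib

/-!
# The cube test for functions of degree at most two

`V` is a finite vector space over `ZMod 2`. If the sum of `f` over a random cube is zero with
probability near one, then `f` is near a function whose sums over all cubes are zero.
-/

set_option autoImplicit false

namespace Pool.Agent.LTCB

open Finset

section Hom

variable {G H : Type} [AddCommGroup G] [Fintype G] [AddCommGroup H] [Fintype H]

/-- the preimage of a set under a surjective homomorphism -/
theorem card_preimage (φ : G →+ H) (hφ : Function.Surjective φ) (P : H → Prop) [DecidablePred P] :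
    (univ.filter fun g => P (φ g)).card * Fintype.card H =
      (univ.filter P).card * Fintype.card G := by
  classical
  have hfib : ∀ h : H, (univ.filter fun g => φ g = h).card = (univ.filter fun g => φ g = 0).card := by
    intro h
    obtain ⟨g₀, rfl⟩ := hφ h
    refine card_bij' (fun g _ => g - g₀) (fun g _ => g + g₀) ?_ ?_ ?_ ?_
    · intro g hg
      simp only [mem_filter, mem_univ, true_and] at hg ⊢
      rw [map_sub, hg, sub_self]
    · intro g hg
      simp only [mem_filter, mem_univ, true_and] at hg ⊢
      rw [map_add, hg, zero_add]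
    · intro g _
      exact sub_add_cancel g g₀
    · intro g _
      exact add_sub_cancel_right g g₀
  have h1 : ∀ Q : H → Prop, ∀ _ : DecidablePred Q, (univ.filter fun g => Q (φ g)).card =
      (univ.filter Q).card * (univ.filter fun g => φ g = 0).card := by
    intro Q _
    rw [card_eq_sum_card_fiberwise (f := φ) (t := univ.filter Q)
      (fun g hg => by simpa using hg)]
    rw [sum_congr rfl (fun h hh => ?_), sum_const, smul_eq_mul]
    rw [← hfib h]
    congr 1
    ext g
    simp only [mem_filter, mem_univ, true_and] at hh ⊢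
    constructor
    · rintro ⟨-, h2⟩
      exact h2
    · intro h2
      exact ⟨by rw [h2]; exact hh, h2⟩
  have h2 := h1 (fun _ => True) inferInstance
  simp only [filter_true, card_univ] at h2
  rw [h1 P inferInstance, h2]
  ring

end Hom

variable {V : Type} [AddCommGroup V] [Module (ZMod 2) V]

/-- the linear combination -/
def dot {W : Type} [AddCommGroup W] [Module (ZMod 2) W] (S : ZMod 2 × ZMod 2 × ZMod 2)
    (a : W × W × W) : W := S.1 • a.1 + S.2.1 • a.2.1 + S.2.2 • a.2.2

/-- the sum of `f` over the cube -/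
def cube (f : V → ZMod 2) (x : V) (a : V × V × V) : ZMod 2 :=
  ∑ S : ZMod 2 × ZMod 2 × ZMod 2, f (x + dot S a)

/-- the sum of `f` over the points of the cube which are not the base point -/
def vote (f : V → ZMod 2) (x : V) (a : V × V × V) : ZMod 2 :=
  ∑ S ∈ univ.erase (0 : ZMod 2 × ZMod 2 × ZMod 2), f (x + dot S a)

theorem dot_zero {W : Type} [AddCommGroup W] [Module (ZMod 2) W] (a : W × W × W) :
    dot 0 a = 0 := by
  simp [dot]

theorem cube_eq (f : V → ZMod 2) (x : V) (a : V × V × V) : cube f x a = f x + vote f x a := by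
  unfold cube vote
  rw [← add_sum_erase univ _ (mem_univ (0 : ZMod 2 × ZMod 2 × ZMod 2)), dot_zero, add_zero]

theorem dot_dot (x : V) (a : V × V × V) (S R : ZMod 2 × ZMod 2 × ZMod 2) (U : V × V × V)
    (U' : (V × V × V) × (V × V × V) × (V × V × V)) :
    (x + dot S a) + dot R (U + dot S U') =
      (x + dot R U) + dot S (a + (dot R U'.1, dot R U'.2.1, dot R U'.2.2)) := by
  simp only [dot, Prod.fst_add, Prod.snd_add, Prod.smul_fst, Prod.smul_snd]
  module

theorem sum_vote (f : V → ZMod 2) (x : V) (a : V × V × V) (U : V × V × V)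
    (U' : (V × V × V) × (V × V × V) × (V × V × V)) :
    ∑ S : ZMod 2 × ZMod 2 × ZMod 2, vote f (x + dot S a) (U + dot S U') =
      ∑ R ∈ univ.erase (0 : ZMod 2 × ZMod 2 × ZMod 2), cube f (x + dot R U)
        (a + (dot R U'.1, dot R U'.2.1, dot R U'.2.2)) := by
  unfold vote cube
  rw [sum_comm]
  refine sum_congr rfl fun R _ => sum_congr rfl fun S _ => ?_
  rw [dot_dot]

/-- comparison of two votes -/
theorem vote_add_vote (f : V → ZMod 2) (x : V) (a b : V × V × V) :
    vote f x a + vote f x b =
      ∑ R ∈ univ.erase (0 : ZMod 2 × ZMod 2 × ZMod 2), cube f (x + dot R a) b +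
      ∑ R ∈ univ.erase (0 : ZMod 2 × ZMod 2 × ZMod 2), cube f (x + dot R b) a := by
  have h2 : (2 : ZMod 2) = 0 := rfl
  simp only [cube_eq, sum_add_distrib]
  have h3 : ∑ R ∈ univ.erase (0 : ZMod 2 × ZMod 2 × ZMod 2), vote f (x + dot R a) b =
      ∑ R ∈ univ.erase (0 : ZMod 2 × ZMod 2 × ZMod 2), vote f (x + dot R b) a := by
    unfold vote
    rw [sum_comm]
    refine sum_congr rfl fun R _ => sum_congr rfl fun S _ => ?_
    rw [add_right_comm]
  have h4 : ∑ R ∈ univ.erase (0 : ZMod 2 × ZMod 2 × ZMod 2), f (x + dot R a) = vote f x a := rfl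
  have h5 : ∑ R ∈ univ.erase (0 : ZMod 2 × ZMod 2 × ZMod 2), f (x + dot R b) = vote f x b := rfl
  rw [h3, h4, h5]
  linear_combination -(∑ R ∈ univ.erase (0 : ZMod 2 × ZMod 2 × ZMod 2),
    vote f (x + dot R b) a) * h2

/-- `dot R` as a homomorphism -/
def dotHom {W : Type} [AddCommGroup W] [Module (ZMod 2) W] (R : ZMod 2 × ZMod 2 × ZMod 2) :
    (W × W × W) →+ W where
  toFun := dot R
  map_zero' := by simp [dot]
  map_add' := by
    intro a b
    simp only [dot, Prod.fst_add, Prod.snd_add]
    module

theorem dot_surjective {W : Type} [AddCommGroup W] [Module (ZMod 2) W]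
    {R : ZMod 2 × ZMod 2 × ZMod 2} (hR : R ≠ 0) (w : W) : ∃ a : W × W × W, dot R a = w := by
  have h : ∀ z : ZMod 2, z = 0 ∨ z = 1 := by decide
  obtain ⟨r, s, t⟩ := R
  rcases h r with rfl | rfl
  · rcases h s with rfl | rfl
    · rcases h t with rfl | rfl
      · exact absurd rfl hR
      · exact ⟨(0, 0, w), by simp [dot]⟩
    · exact ⟨(0, w, 0), by simp [dot]⟩
  · exact ⟨(w, 0, 0), by simp [dot]⟩

section Count

variable [Fintype V] [DecidableEq V]

/-- the number of the bad cubes -/
def bad (f : V → ZMod 2) : ℕ :=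
  (univ.filter fun p : V × V × V × V => cube f p.1 p.2 ≠ 0).card

omit [DecidableEq V] in
theorem card_shift (f : V → ZMod 2) (x : V) (a : V × V × V) :
    (univ.filter fun p : V × V × V × V => cube f (x + p.1) (a + p.2) ≠ 0).card = bad f := by
  unfold bad
  refine card_bij' (fun p _ => (x + p.1, a + p.2)) (fun p _ => (p.1 - x, p.2 - a)) ?_ ?_ ?_ ?_
  · intro p hp
    simpa using hp
  · intro p hp
    simp only [mem_filter, mem_univ, true_and, add_sub_cancel] at hp ⊢
    exact hp
  · intro p _
    simp
  · intro p _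
    simp

omit [DecidableEq V] in
/-- bad cubes with a random base point -/
theorem card_cube_dot (f : V → ZMod 2) (x : V) {R : ZMod 2 × ZMod 2 × ZMod 2} (hR : R ≠ 0) :
    (univ.filter fun p : (V × V × V) × (V × V × V) => cube f (x + dot R p.1) p.2 ≠ 0).card =
      bad f * Fintype.card V ^ 2 := by
  have h1 := card_preimage (G := (V × V × V) × (V × V × V)) (H := V × V × V × V)
    ((dotHom R).prodMap (AddMonoidHom.id _)) (by
      rintro ⟨v, b⟩
      obtain ⟨a, ha⟩ := dot_surjective hR v
      exact ⟨(a, b), by rw [AddMonoidHom.coe_prodMap]; exact Prod.ext ha rfl⟩)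
    (fun p => cube f (x + p.1) (0 + p.2) ≠ 0)
  rw [card_shift] at h1
  have h2 : ∀ p : (V × V × V) × (V × V × V),
      cube f (x + (((dotHom R).prodMap (AddMonoidHom.id _)) p).1)
        (0 + (((dotHom R).prodMap (AddMonoidHom.id _)) p).2) = cube f (x + dot R p.1) p.2 := by
    intro p
    rw [zero_add]
    rfl
  simp only [h2, Fintype.card_prod] at h1
  have hn : 0 < Fintype.card V := Fintype.card_pos
  have h3 : 0 < Fintype.card V ^ 4 := by positivity
  refine Nat.eq_of_mul_eq_mul_right h3 ?_
  calc _ = _ := by ring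
    _ = _ := h1
    _ = _ := by ring

omit [DecidableEq V] in
theorem card_vote_ne (f : V → ZMod 2) (x : V) :
    (univ.filter fun p : (V × V × V) × (V × V × V) => vote f x p.1 ≠ vote f x p.2).card ≤
      14 * (bad f * Fintype.card V ^ 2) := by
  classical
  set I := univ.erase (0 : ZMod 2 × ZMod 2 × ZMod 2) with hI
  have hIc : I.card = 7 := by
    rw [hI, card_erase_of_mem (mem_univ _)]
    rfl
  have hsub : (univ.filter fun p : (V × V × V) × (V × V × V) => vote f x p.1 ≠ vote f x p.2) ⊆
      (I.biUnion fun R => univ.filter fun p : (V × V × V) × (V × V × V) =>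
        cube f (x + dot R p.1) p.2 ≠ 0) ∪
      (I.biUnion fun R => univ.filter fun p : (V × V × V) × (V × V × V) =>
        cube f (x + dot R p.2) p.1 ≠ 0) := by
    intro p hp
    simp only [mem_filter, mem_univ, true_and] at hp
    by_contra hcon
    simp only [mem_union, mem_biUnion, mem_filter, mem_univ, true_and, not_or, not_exists,
      not_and, not_not] at hcon
    apply hp
    have h1 := vote_add_vote f x p.1 p.2
    rw [← hI, sum_eq_zero hcon.1, sum_eq_zero hcon.2, add_zero] at h1
    have h2 : (2 : ZMod 2) = 0 := rfl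
    linear_combination h1 - vote f x p.2 * h2
  have hswap : ∀ R : ZMod 2 × ZMod 2 × ZMod 2,
      (univ.filter fun p : (V × V × V) × (V × V × V) => cube f (x + dot R p.2) p.1 ≠ 0).card =
      (univ.filter fun p : (V × V × V) × (V × V × V) => cube f (x + dot R p.1) p.2 ≠ 0).card := by
    intro R
    refine card_bij' (fun p _ => p.swap) (fun p _ => p.swap) ?_ ?_ ?_ ?_
    · intro p hp
      simpa using hp
    · intro p hp
      simpa using hp
    · intro p _
      simp
    · intro p _
      simp
  refine (card_le_card hsub).trans ((card_union_le _ _).trans ?_)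
  have h1 : (I.biUnion fun R => univ.filter fun p : (V × V × V) × (V × V × V) =>
      cube f (x + dot R p.1) p.2 ≠ 0).card ≤ 7 * (bad f * Fintype.card V ^ 2) := by
    refine card_biUnion_le.trans ?_
    rw [← hIc, ← smul_eq_mul, ← sum_const]
    exact (sum_congr rfl fun R hR => card_cube_dot f x (ne_of_mem_erase hR)).le
  have h2 : (I.biUnion fun R => univ.filter fun p : (V × V × V) × (V × V × V) =>
      cube f (x + dot R p.2) p.1 ≠ 0).card ≤ 7 * (bad f * Fintype.card V ^ 2) := by
    refine card_biUnion_le.trans ?_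
    rw [← hIc, ← smul_eq_mul, ← sum_const]
    exact (sum_congr rfl fun R hR => (hswap R).trans
      (card_cube_dot f x (ne_of_mem_erase hR))).le
  omega

/-- the majority of the votes -/
def maj (f : V → ZMod 2) (x : V) : ZMod 2 :=
  if Fintype.card V ^ 3 < 2 * (univ.filter fun a : V × V × V => vote f x a = 1).card then 1 else 0

omit [DecidableEq V] in
theorem card_maj (f : V → ZMod 2) (x : V) :
    2 * (univ.filter fun a : V × V × V => vote f x a ≠ maj f x).card ≤ Fintype.card V ^ 3 := by
  have htot := card_filter_add_card_filter_not (s := (univ : Finset (V × V × V)))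
    (fun a => vote f x a = 1)
  have hcard : (univ : Finset (V × V × V)).card = Fintype.card V ^ 3 := by
    rw [card_univ, Fintype.card_prod, Fintype.card_prod]
    ring
  rw [hcard] at htot
  have hz : ∀ z : ZMod 2, z = 0 ∨ z = 1 := by decide
  unfold maj
  split_ifs with h
  · have : (univ.filter fun a : V × V × V => vote f x a ≠ 1) =
      univ.filter fun a : V × V × V => ¬ vote f x a = 1 := rfl
    rw [this]
    omega
  · have : (univ.filter fun a : V × V × V => vote f x a ≠ 0) =
        univ.filter fun a : V × V × V => vote f x a = 1 := by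
      ext a
      simp only [mem_filter, mem_univ, true_and]
      rcases hz (vote f x a) with h1 | h1 <;> simp [h1]
    rw [this]
    omega

omit [DecidableEq V] in
theorem card_eq_maj (f : V → ZMod 2) (x : V) :
    (univ.filter fun a : V × V × V => vote f x a ≠ maj f x).card +
      (univ.filter fun a : V × V × V => vote f x a = maj f x).card = Fintype.card V ^ 3 := by
  have htot := card_filter_add_card_filter_not (s := (univ : Finset (V × V × V)))
    (fun a => vote f x a = maj f x)
  rw [card_univ, Fintype.card_prod, Fintype.card_prod] at htot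
  have h1 : Fintype.card V * (Fintype.card V * Fintype.card V) = Fintype.card V ^ 3 := by ring
  rw [h1] at htot
  rw [← htot, add_comm]

omit [DecidableEq V] in
/-- at every point few votes are different from the majority -/
theorem card_minority (f : V → ZMod 2) (x : V) :
    (univ.filter fun a : V × V × V => vote f x a ≠ maj f x).card * Fintype.card V ≤
      28 * bad f := by
  set m := (univ.filter fun a : V × V × V => vote f x a ≠ maj f x).card with hm
  set m' := (univ.filter fun a : V × V × V => vote f x a = maj f x).card with hm'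
  have h1 : m + m' = Fintype.card V ^ 3 := card_eq_maj f x
  have h2 : 2 * m ≤ Fintype.card V ^ 3 := card_maj f x
  have h3 : m * m' ≤ 14 * (bad f * Fintype.card V ^ 2) := by
    refine le_trans ?_ (card_vote_ne f x)
    rw [hm, hm', ← card_product]
    refine card_le_card ?_
    rintro ⟨a, b⟩ hp
    simp only [mem_product, mem_filter, mem_univ, true_and] at hp ⊢
    rw [hp.2]
    exact hp.1
  have hn : 0 < Fintype.card V := Fintype.card_pos
  have h4 : m * Fintype.card V ^ 3 ≤ 28 * (bad f * Fintype.card V ^ 2) := by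
    have h5 : Fintype.card V ^ 3 ≤ 2 * m' := by omega
    calc m * Fintype.card V ^ 3 ≤ m * (2 * m') := Nat.mul_le_mul_left _ h5
      _ = 2 * (m * m') := by ring
      _ ≤ 2 * (14 * (bad f * Fintype.card V ^ 2)) := Nat.mul_le_mul_left _ h3
      _ = _ := by ring
  have h5 : 0 < Fintype.card V ^ 2 := by positivity
  refine Nat.le_of_mul_le_mul_right ?_ h5
  calc m * Fintype.card V * Fintype.card V ^ 2 = m * Fintype.card V ^ 3 := by ring
    _ ≤ _ := h4
    _ = _ := by ring

/-- the majority is near the function -/
theorem card_ne_maj (f : V → ZMod 2) :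
    (univ.filter fun x => f x ≠ maj f x).card * Fintype.card V ^ 3 ≤ 2 * bad f := by
  have h1 : bad f = ∑ x, (univ.filter fun a : V × V × V => cube f x a ≠ 0).card := by
    unfold bad
    rw [card_eq_sum_card_fiberwise (f := fun p : V × V × V × V => p.1) (t := univ)
      (fun _ _ => mem_univ _)]
    refine sum_congr rfl fun x _ => ?_
    refine card_bij' (fun p _ => p.2) (fun a _ => (x, a)) ?_ ?_ ?_ ?_
    · rintro ⟨y, a⟩ hp
      simp only [mem_filter, mem_univ, true_and] at hp ⊢
      obtain ⟨h1, rfl⟩ := hp
      exact h1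
    · intro a ha
      simp only [mem_filter, mem_univ, true_and] at ha ⊢
      exact ⟨ha, trivial⟩
    · rintro ⟨y, a⟩ hp
      simp only [mem_filter, mem_univ, true_and] at hp
      obtain ⟨-, rfl⟩ := hp
      rfl
    · intro a _
      rfl
  have hz : ∀ z w : ZMod 2, z ≠ w → z + w ≠ 0 := by decide
  have h2 : ∀ x ∈ univ.filter (fun x => f x ≠ maj f x), Fintype.card V ^ 3 ≤
      2 * (univ.filter fun a : V × V × V => cube f x a ≠ 0).card := by
    intro x hx
    have h3 := (mem_filter.1 hx).2
    have h4 : (univ.filter fun a : V × V × V => vote f x a = maj f x).card ≤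
        (univ.filter fun a : V × V × V => cube f x a ≠ 0).card := by
      refine card_le_card fun a ha => ?_
      simp only [mem_filter, mem_univ, true_and] at ha ⊢
      rw [cube_eq, ha]
      exact hz _ _ h3
    have h5 := card_maj f x
    have h6 := card_eq_maj f x
    omega
  calc (univ.filter fun x => f x ≠ maj f x).card * Fintype.card V ^ 3
      = ∑ _x ∈ univ.filter (fun x => f x ≠ maj f x), Fintype.card V ^ 3 := by
        rw [sum_const, smul_eq_mul]
    _ ≤ ∑ x ∈ univ.filter (fun x => f x ≠ maj f x),
        2 * (univ.filter fun a : V × V × V => cube f x a ≠ 0).card := sum_le_sum h2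
    _ ≤ ∑ x, 2 * (univ.filter fun a : V × V × V => cube f x a ≠ 0).card :=
        sum_le_sum_of_subset (subset_univ _)
    _ = 2 * bad f := by rw [h1, mul_sum]

/-- the majority has degree at most two if there are few bad cubes -/
theorem cube_maj (f : V → ZMod 2) (hf : 231 * bad f < Fintype.card V ^ 4) (x : V)
    (a : V × V × V) : cube (maj f) x a = 0 := by
  set n := Fintype.card V with hn
  have hn0 : 0 < n := Fintype.card_pos
  set I := univ.erase (0 : ZMod 2 × ZMod 2 × ZMod 2) with hI
  have hIc : I.card = 7 := by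
    rw [hI, card_erase_of_mem (mem_univ _)]
    rfl
  let Ω := (V × V × V) × ((V × V × V) × (V × V × V) × (V × V × V))
  have hΩ : Fintype.card Ω = n ^ 12 := by
    simp only [Ω, Fintype.card_prod, ← hn]
    ring
  set A : ZMod 2 × ZMod 2 × ZMod 2 → Finset Ω := fun S => univ.filter fun p =>
    vote f (x + dot S a) (p.1 + dot S p.2) ≠ maj f (x + dot S a) with hA
  set B : ZMod 2 × ZMod 2 × ZMod 2 → Finset Ω := fun R => univ.filter fun p =>
    cube f (x + dot R p.1) (a + (dot R p.2.1, dot R p.2.2.1, dot R p.2.2.2)) ≠ 0 with hB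
  have hAc : ∀ S, (A S).card * n ^ 4 ≤ 28 * bad f * n ^ 12 := by
    intro S
    have h1 := card_preimage (G := Ω) (H := V × V × V)
      ((AddMonoidHom.fst _ _) + (dotHom S).comp (AddMonoidHom.snd _ _)) (by
        intro u
        refine ⟨(u, 0), ?_⟩
        change u + dotHom S 0 = u
        rw [map_zero, add_zero])
      (fun u => vote f (x + dot S a) u ≠ maj f (x + dot S a))
    have h2 := card_minority f (x + dot S a)
    have h3 : (A S).card * n ^ 3 = (univ.filter fun u : V × V × V =>
        vote f (x + dot S a) u ≠ maj f (x + dot S a)).card * n ^ 12 := by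
      have h4 : Fintype.card (V × V × V) = n ^ 3 := by
        simp only [Fintype.card_prod, ← hn]
        ring
      rw [hΩ, h4] at h1
      exact h1
    calc (A S).card * n ^ 4 = ((A S).card * n ^ 3) * n := by ring
      _ = ((univ.filter fun u : V × V × V =>
        vote f (x + dot S a) u ≠ maj f (x + dot S a)).card * n) * n ^ 12 := by rw [h3]; ring
      _ ≤ _ := Nat.mul_le_mul_right _ h2
  have hBc : ∀ R ∈ I, (B R).card * n ^ 4 = bad f * n ^ 12 := by
    intro R hR
    have hR0 : R ≠ 0 := ne_of_mem_erase hR
    have h1 := card_preimage (G := Ω) (H := V × V × V × V)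
      ((dotHom R).prodMap ((dotHom R).prodMap ((dotHom R).prodMap (dotHom R)))) (by
        rintro ⟨v₀, v₁, v₂, v₃⟩
        obtain ⟨a₀, h₀⟩ := dot_surjective hR0 v₀
        obtain ⟨a₁, h₁⟩ := dot_surjective hR0 v₁
        obtain ⟨a₂, h₂⟩ := dot_surjective hR0 v₂
        obtain ⟨a₃, h₃⟩ := dot_surjective hR0 v₃
        exact ⟨(a₀, a₁, a₂, a₃), Prod.ext h₀ (Prod.ext h₁ (Prod.ext h₂ h₃))⟩)
      (fun p => cube f (x + p.1) (a + p.2) ≠ 0)
    rw [card_shift] at h1
    have h4 : Fintype.card (V × V × V × V) = n ^ 4 := by
      simp only [Fintype.card_prod, ← hn]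
      ring
    rw [hΩ, h4] at h1
    exact h1
  set Z : Finset Ω := univ.biUnion A ∪ I.biUnion B with hZ
  have hZc : Z.card * n ^ 4 < n ^ 12 * n ^ 4 := by
    have h1 : Z.card ≤ ∑ S, (A S).card + ∑ R ∈ I, (B R).card :=
      (card_union_le _ _).trans (Nat.add_le_add card_biUnion_le card_biUnion_le)
    calc Z.card * n ^ 4 ≤ (∑ S, (A S).card + ∑ R ∈ I, (B R).card) * n ^ 4 :=
          Nat.mul_le_mul_right _ h1
      _ = ∑ S, (A S).card * n ^ 4 + ∑ R ∈ I, (B R).card * n ^ 4 := by
          rw [add_mul, sum_mul, sum_mul]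
      _ ≤ ∑ _S : ZMod 2 × ZMod 2 × ZMod 2, 28 * bad f * n ^ 12 + ∑ _R ∈ I, bad f * n ^ 12 :=
          Nat.add_le_add (sum_le_sum fun S _ => hAc S) (sum_le_sum fun R hR => (hBc R hR).le)
      _ = 231 * bad f * n ^ 12 := by
          rw [sum_const, sum_const, hIc, card_univ]
          have : Fintype.card (ZMod 2 × ZMod 2 × ZMod 2) = 8 := rfl
          rw [this, smul_eq_mul, smul_eq_mul]
          ring
      _ < n ^ 4 * n ^ 12 := Nat.mul_lt_mul_of_pos_right hf (by positivity)
      _ = _ := by ring
  have hZlt : Z.card < n ^ 12 := lt_of_mul_lt_mul_right hZc (Nat.zero_le _)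
  obtain ⟨p, hp⟩ : ∃ p : Ω, p ∉ Z := by
    by_contra hcon
    push Not at hcon
    have : Z = univ := eq_univ_of_forall hcon
    rw [this, card_univ, hΩ] at hZlt
    exact lt_irrefl _ hZlt
  simp only [hZ, hA, hB, mem_union, mem_biUnion, mem_filter, mem_univ, true_and, not_or,
    not_exists, not_not, not_and] at hp
  have h1 := sum_vote f x a p.1 p.2
  rw [← hI, sum_eq_zero hp.2] at h1
  rw [cube, ← h1]
  exact sum_congr rfl fun S _ => (hp.1 S).symm

end Count

end Pool.Agent.LTCB
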