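import Pool.Agent.LTCB.Neg

/-!
# The bad words

The words `x ↦ ψ (x * x ^ (2 ^ (2 * e k)))` are far from the code, and few positions do not show
that they are not codewords.
-/

set_option autoImplicit false

namespace Pool.Agent.LTCB

open Finset Pool.Agent.LTC

variable {t : ℕ} {n e : Fin t → ℕ} {K : Type} [Field K] [CharP K 2] [Fintype K]
  [Algebra (ZMod 2) K]

private theorem ne_iff_add : ∀ a b : ZMod 2, a ≠ b ↔ a + b ≠ 0 := by decide

/-- the bad words -/
def rr (ψ : K →ₗ[ZMod 2] ZMod 2) (e : Fin t → ℕ) (k : Fin t) (x : K) : ZMod 2 :=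
  ψ (x * x ^ 2 ^ (2 * e k))

omit [CharP K 2] in
theorem undetected [CharP K 2] (he : IsCRT n e) (ψ : K →ₗ[ZMod 2] ZMod 2) (q : ℕ)
    (I : Finset K) (hI : I.card ≤ q) : ∃ S : Finset (Fin t), S.card ≤ q ∧
      ∀ k, k ∉ S → ∃ d ∈ code6 n K, ∀ i ∈ I, d i = rr ψ e k i := by
  classical
  obtain ⟨S, hS, hmem⟩ := exists_small_set he (fun i : I => (i : K))
  rw [Fintype.card_coe] at hS
  refine ⟨S, hS.trans hI, fun k hkS => ?_⟩
  obtain ⟨w, hw, hwI⟩ := exists_of_mem_box_comp (fun x : K => x) Finset.univ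
    (fun i : I => (i : K)) (hmem k hkS)
  refine exists_agree _ I _ fun u hu hsupp => ?_
  have h1 := dual_le_DD hu _ (self_mem_box (n := n) (fun x : K => x) Finset.univ) w hw
  have h2 : ∀ x : K, u x * rr ψ e k x = ψ (u x • (x * w x)) := by
    intro x
    rw [map_smul, smul_eq_mul]
    by_cases hx : x ∈ I
    · rw [rr, hwI ⟨x, hx⟩]
    · rw [hsupp x hx, zero_mul, zero_mul]
  simp only [h2]
  rw [← map_sum, h1, map_zero]

omit [CharP K 2] in
theorem card_eq_pow : Fintype.card K = 2 ^ Module.finrank (ZMod 2) K := by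
  have := Module.card_eq_pow_finrank (K := ZMod 2) (V := K)
  rwa [ZMod.card] at this

omit [CharP K 2] in
theorem pow_inj (hN : Odd (Module.finrank (ZMod 2) K)) (s : ℕ) :
    Function.Injective fun x : K => x * x ^ 2 ^ s := by
  classical
  set N := Module.finrank (ZMod 2) K with hNdef
  have hcop : (Nat.card Kˣ).Coprime (1 + 2 ^ s) := by
    rw [Nat.card_eq_fintype_card, Fintype.card_units, card_eq_pow, ← hNdef]
    set d := Nat.gcd (2 ^ N - 1) (1 + 2 ^ s) with hd
    have h1 : d ∣ 2 ^ N - 1 := Nat.gcd_dvd_left _ _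
    have h2 : d ∣ 1 + 2 ^ s := Nat.gcd_dvd_right _ _
    have h3 : d ∣ 2 ^ (2 * s) - 1 := by
      refine h2.trans ⟨2 ^ s - 1, ?_⟩
      have h4 : 1 ≤ 2 ^ s := Nat.one_le_two_pow
      have h5 : 2 ^ (2 * s) = 2 ^ s * 2 ^ s := by rw [two_mul, pow_add]
      rw [h5]
      obtain ⟨w, hw⟩ := Nat.exists_eq_add_of_le h4
      rw [hw, Nat.add_sub_cancel_left]
      have : (1 + w) * (1 + w) = 1 + (1 + (1 + w)) * w := by ring
      rw [this, Nat.add_sub_cancel_left]
    have h6 : d ∣ 2 ^ Nat.gcd N (2 * s) - 1 := by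
      rw [← Nat.pow_sub_one_gcd_pow_sub_one]
      exact Nat.dvd_gcd h1 h3
    have h7 : Nat.gcd N (2 * s) ∣ s := by
      have h8 : Nat.Coprime (Nat.gcd N (2 * s)) 2 :=
        (Nat.Coprime.coprime_dvd_left (Nat.gcd_dvd_left _ _) (Nat.coprime_two_right.2 hN))
      exact h8.dvd_of_dvd_mul_left (Nat.gcd_dvd_right _ _)
    have h8 : d ∣ 2 ^ s - 1 := by
      refine h6.trans ?_
      obtain ⟨w, hw⟩ := h7
      conv_rhs => rw [hw]
      rw [pow_mul]
      exact Nat.sub_one_dvd_pow_sub_one _ _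
    have h9 : d ∣ 2 := by
      have h10 : 1 ≤ 2 ^ s := Nat.one_le_two_pow
      have h11 := Nat.dvd_sub h2 h8
      have h12 : 1 + 2 ^ s - (2 ^ s - 1) = 2 := by
        generalize 2 ^ s = w at h10 ⊢
        omega
      rwa [h12] at h11
    have hNpos : N ≠ 0 := by
      rintro h0
      rw [h0] at hN
      exact absurd hN (by decide)
    have h13 : ¬ 2 ∣ 2 ^ N - 1 := by
      obtain ⟨m, hm⟩ := Nat.exists_eq_succ_of_ne_zero hNpos
      rw [hm, pow_succ]
      have : 1 ≤ 2 ^ m := Nat.one_le_two_pow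
      generalize 2 ^ m = w at this ⊢
      omega
    have h14 : d ≠ 2 := by
      intro h
      rw [h] at h1
      exact h13 h1
    rcases (Nat.dvd_prime Nat.prime_two).1 h9 with h | h
    · exact h
    · exact absurd h h14
  intro x y hxy
  change x * x ^ 2 ^ s = y * y ^ 2 ^ s at hxy
  have h1 : ∀ x : K, x * x ^ 2 ^ s = x ^ (1 + 2 ^ s) := fun x => by rw [pow_add, pow_one]
  rw [h1, h1] at hxy
  by_cases hx : x = 0
  · rw [hx, zero_pow (by positivity)] at hxy
    rw [hx]
    exact (pow_eq_zero_iff (by positivity)).1 hxy.symm |>.symm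
  · by_cases hy : y = 0
    · rw [hy, zero_pow (by positivity)] at hxy
      exact absurd ((pow_eq_zero_iff (by positivity)).1 hxy) hx
    · have h2 : powCoprime hcop (Units.mk0 x hx) = powCoprime hcop (Units.mk0 y hy) := by
        apply Units.ext
        simpa [powCoprime] using hxy
      exact congrArg (fun v : Kˣ => (v : K)) ((powCoprime hcop).injective h2)

omit [CharP K 2] in
/-- a linear function which is not zero is not zero on half of the space -/
theorem card_psi (ψ : K →ₗ[ZMod 2] ZMod 2) (hψ : ∃ x, ψ x ≠ 0) :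
    Fintype.card K ≤ 2 * (univ.filter fun x => ψ x ≠ 0).card := by
  classical
  obtain ⟨x₀, h₀⟩ := hψ
  have htot := card_filter_add_card_filter_not (s := (univ : Finset K)) (fun x => ψ x = 0)
  rw [card_univ] at htot
  have h1 : (univ.filter fun x => ψ x = 0).card ≤ (univ.filter fun x => ¬ ψ x = 0).card := by
    refine card_le_card_of_injOn (fun x => x + x₀) ?_ ?_
    · intro x hx
      simp only [coe_filter, mem_univ, true_and, Set.mem_ofPred_eq] at hx ⊢
      rw [map_add, hx, zero_add]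
      exact h₀
    · intro x _ y _ hxy
      exact add_right_cancel hxy
  have h2 : (univ.filter fun x => ψ x ≠ 0).card = (univ.filter fun x => ¬ ψ x = 0).card := rfl
  omega

omit [CharP K 2] in
theorem card_psi_pow (hN : Odd (Module.finrank (ZMod 2) K)) (s : ℕ)
    (ψ : K →ₗ[ZMod 2] ZMod 2) (hψ : ∃ x, ψ x ≠ 0) {σ : K} (hσ : σ ≠ 0) :
    Fintype.card K ≤ 2 * (univ.filter fun l : K => ψ (l * l ^ 2 ^ s * σ) ≠ 0).card := by
  classical
  refine (card_psi ψ hψ).trans (Nat.mul_le_mul_left 2 ?_)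
  have hinj : Function.Injective fun l : K => l * l ^ 2 ^ s * σ := fun x y hxy =>
    pow_inj hN s (mul_right_cancel₀ hσ hxy)
  have hbij := Finite.injective_iff_bijective.1 hinj
  refine le_of_eq ?_
  symm
  refine card_bijective _ hbij fun x => ?_
  simp

theorem card_far (he : IsCRT n e) (hn : ∀ i, 5 ≤ n i) (hodd : ∀ i, Odd (n i))
    (hN : Module.finrank (ZMod 2) K = ∏ i, n i) (ψ : K →ₗ[ZMod 2] ZMod 2)
    (hψ : ∃ x, ψ x ≠ 0) (k : Fin t) {c : K → ZMod 2} (hc : c ∈ code6 n K) :
    Fintype.card K ≤ 12 * (univ.filter fun x => c x ≠ rr ψ e k x).card := by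
  classical
  have : Fact (Nat.Prime 2) := ⟨Nat.prime_two⟩
  have h2 : (2 : K) = 0 := CharTwo.two_eq_zero
  have hni : n k ≠ 0 := by have := hn k; omega
  have hE : Module.finrank (ZMod 2) (GaloisField 2 (n k)) = n k := GaloisField.finrank 2 hni
  have hdvd : Module.finrank (ZMod 2) (GaloisField 2 (n k)) ∣ Module.finrank (ZMod 2) K := by
    rw [hE, hN]
    exact Finset.dvd_prod_of_mem n (Finset.mem_univ k)
  obtain ⟨φ⟩ := FiniteField.nonempty_algHom_of_finrank_dvd hdvd
  let _ : Fintype (GaloisField 2 (n k)) := Fintype.ofFinite _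
  obtain ⟨z, h1, h3, h5⟩ := exists_hexad (E := GaloisField 2 (n k)) (hodd k) (hn k) (by
    rw [card_eq_pow, hE])
  set s := 2 * e k with hs
  set σ : K := φ (∑ i, z i ^ 5) with hσ
  have hσ0 : σ ≠ 0 := by
    intro h
    exact h5 (φ.injective (h.trans (map_zero φ).symm))
  -- the sum of the values of the bad word
  have hpow : ∀ j, φ (z j) ^ 2 ^ s = φ (z j) ^ 4 := by
    intro j
    have h4 : s % n k = 2 := by
      rw [hs, Nat.mul_mod, he.one k, mul_one, Nat.mod_mod, Nat.mod_eq_of_lt (by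
        have := hn k; omega)]
    have h6 := pow_mod_eq (GaloisField 2 (n k)) s (z j)
    rw [hE, h4] at h6
    rw [← map_pow, ← h6, map_pow]
    norm_num
  have e1 : ∑ j, φ (z j) = 0 := by rw [← map_sum, h1, map_zero]
  have e4 : ∑ j, φ (z j) ^ 4 = 0 := by
    have h6 : (∑ j, φ (z j)) ^ 4 = ∑ j, φ (z j) ^ 4 := by
      have := sum_pow_char_pow 2 2 (Finset.univ : Finset (Fin 6)) (fun j => φ (z j))
      simpa using this
    rw [← h6, e1]
    simp
  have hsum : ∀ y l : K, ∑ j, (y + l * φ (z j)) * (y + l * φ (z j)) ^ 2 ^ s =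
      l * l ^ 2 ^ s * σ := by
    intro y l
    have h6 : ∀ j, (y + l * φ (z j)) * (y + l * φ (z j)) ^ 2 ^ s =
        y * y ^ 2 ^ s + y * l ^ 2 ^ s * φ (z j) ^ 4 + l * y ^ 2 ^ s * φ (z j) +
          l * l ^ 2 ^ s * φ (z j) ^ 5 := by
      intro j
      have h7 : (y + l * φ (z j)) ^ 2 ^ s = y ^ 2 ^ s + l ^ 2 ^ s * φ (z j) ^ 4 := by
        rw [← hpow j, ← mul_pow]
        exact add_pow_char_pow ..
      rw [h7]
      ring
    have h8 : σ = ∑ j, φ (z j) ^ 5 := by
      rw [hσ, map_sum]
      exact Finset.sum_congr rfl fun j _ => map_pow φ _ _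
    simp only [h6, Finset.sum_add_distrib, ← Finset.mul_sum, e1, e4, ← h8]
    simp only [Finset.sum_const, Finset.card_univ, Fintype.card_fin, nsmul_eq_mul, mul_zero,
      add_zero]
    push_cast
    linear_combination 3 * (y * y ^ 2 ^ s) * h2
  set g : K → ZMod 2 := fun x => c x + rr ψ e k x with hg
  have hgsum : ∀ y l : K, ∑ j, g (y + l * φ (z j)) = ψ (l * l ^ 2 ^ s * σ) := by
    intro y l
    have h6 := sum_code6 hc (hexad_word φ hE h1 h3 y l)
    rw [sum_word_mul] at h6
    simp only [one_mul] at h6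
    simp only [hg, Finset.sum_add_distrib, h6, zero_add]
    rw [← hsum y l, map_sum]
    rfl
  have hgne : (univ.filter fun x => c x ≠ rr ψ e k x) = univ.filter fun x => g x ≠ 0 := by
    ext x
    simp only [mem_filter, mem_univ, true_and, hg]
    exact ne_iff_add _ _
  rw [hgne]
  set L := univ.filter fun l : K => ψ (l * l ^ 2 ^ s * σ) ≠ 0 with hL
  set B := univ.filter fun x => g x ≠ 0 with hB
  have hNodd : Odd (Module.finrank (ZMod 2) K) := by
    rw [hN]
    exact Finset.prod_induction _ Odd (fun _ _ => Odd.mul) odd_one fun i _ => hodd i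
  have hLc : Fintype.card K ≤ 2 * L.card := card_psi_pow hNodd s ψ hψ hσ0
  -- double counting
  have hcount : (univ ×ˢ L : Finset (K × K)).card ≤
      ∑ j : Fin 6, (univ.filter fun p : K × K => g (p.1 + p.2 * φ (z j)) ≠ 0).card := by
    refine le_trans (card_le_card (t := (univ : Finset (Fin 6)).biUnion fun j =>
      univ.filter fun p : K × K => g (p.1 + p.2 * φ (z j)) ≠ 0) ?_) card_biUnion_le
    intro p hp
    have h6 : ψ (p.2 * p.2 ^ 2 ^ s * σ) ≠ 0 := by
      have := (mem_product.1 hp).2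
      rw [hL] at this
      exact (mem_filter.1 this).2
    rw [← hgsum p.1 p.2] at h6
    obtain ⟨j, -, hj⟩ := Finset.exists_ne_zero_of_sum_ne_zero h6
    simp only [mem_biUnion, mem_univ, true_and, mem_filter]
    exact ⟨j, hj⟩
  have hfib : ∀ j : Fin 6, (univ.filter fun p : K × K => g (p.1 + p.2 * φ (z j)) ≠ 0).card =
      (B ×ˢ (univ : Finset K)).card := by
    intro j
    refine card_bij' (fun p _ => (p.1 + p.2 * φ (z j), p.2))
      (fun p _ => (p.1 - p.2 * φ (z j), p.2)) ?_ ?_ ?_ ?_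
    · intro p hp
      simp only [mem_filter, mem_univ, true_and] at hp
      simp only [mem_product, hB, mem_filter, mem_univ, true_and, and_true]
      exact hp
    · intro p hp
      simp only [mem_product, hB, mem_filter, mem_univ, true_and, and_true] at hp
      simp only [mem_filter, mem_univ, true_and, sub_add_cancel]
      exact hp
    · intro p _
      simp
    · intro p _
      simp
  simp only [hfib, card_product, card_univ, sum_const, Fintype.card_fin, smul_eq_mul] at hcount
  have hK : 0 < Fintype.card K := Fintype.card_pos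
  have h6 : Fintype.card K * Fintype.card K ≤ Fintype.card K * (12 * B.card) := by
    calc Fintype.card K * Fintype.card K ≤ Fintype.card K * (2 * L.card) :=
          Nat.mul_le_mul_left _ hLc
      _ = 2 * (Fintype.card K * L.card) := by ring
      _ ≤ 2 * (6 * (B.card * Fintype.card K)) := Nat.mul_le_mul_left _ hcount
      _ = _ := by ring
  exact Nat.le_of_mul_le_mul_left h6 hK

end Pool.Agent.LTCB
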