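import Mathlib

/-!
# Six points with vanishing power sums

In a finite field of characteristic two with `2 ^ n` elements, `n` odd and at least five, there are
six elements with `∑ z = 0`, `∑ z ^ 3 = 0`, `∑ z ^ 5 ≠ 0`.
-/

set_option autoImplicit false

namespace Pool.Agent.LTCB

open Finset Polynomial

/-- an element with `u = t ^ 2 + t` not a root of `u * (u + 1) * (u ^ 3 + u + 1)` -/
theorem exists_good {E : Type} [Field E] [Fintype E] (h : 10 < Fintype.card E) :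
    ∃ t : E, t ^ 2 + t ≠ 0 ∧ t ^ 2 + t + 1 ≠ 0 ∧ (t ^ 2 + t) ^ 3 + (t ^ 2 + t) + 1 ≠ 0 := by
  set q : E[X] := X * (X + 1) * (X ^ 3 + X + 1) with hq
  have hqm : q.Monic := by
    rw [hq]
    refine (monic_X.mul ?_).mul ?_
    · monicity!
    · monicity!
  have hqd : q.natDegree = 5 := by
    rw [hq]
    have h1 : (X ^ 3 + X + 1 : E[X]).Monic := by monicity!
    have h2 : (X + 1 : E[X]).Monic := by monicity!
    have h3 : (X ^ 3 + X + 1 : E[X]).natDegree = 3 := by compute_degree!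
    have h4 : (X + 1 : E[X]).natDegree = 1 := by compute_degree!
    rw [(monic_X.mul h2).natDegree_mul h1, monic_X.natDegree_mul h2, h3, h4, natDegree_X]
  have hp : (X ^ 2 + X : E[X]).Monic := by monicity!
  have hpd : (X ^ 2 + X : E[X]).natDegree = 2 := by compute_degree!
  have hm : (q.comp (X ^ 2 + X)).Monic := hqm.comp hp (by rw [hpd]; norm_num)
  have hd : (q.comp (X ^ 2 + X)).natDegree = 10 := by
    rw [natDegree_comp, hqd, hpd]
  obtain ⟨t, ht⟩ := exists_eval_ne_zero_of_natDegree_lt_card (q.comp (X ^ 2 + X)) hm.ne_zero (by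
    rw [hd, Cardinal.mk_fintype]
    exact_mod_cast h)
  rw [eval_comp, hq] at ht
  simp only [eval_add, eval_pow, eval_X, eval_mul, eval_one] at ht
  exact ⟨t, fun h0 => ht (by rw [h0]; ring), fun h0 => ht (by rw [h0]; ring),
    fun h0 => ht (by rw [h0]; ring)⟩

/-- cube roots -/
theorem exists_cube {E : Type} [Field E] [Fintype E] {n : ℕ} (hn : Odd n)
    (hE : Fintype.card E = 2 ^ n) (u : E) (hu : u ≠ 0) : ∃ a : E, a ^ 3 = u := by
  classical
  have h1 : (Nat.card Eˣ).Coprime 3 := by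
    rw [Nat.card_eq_fintype_card, Fintype.card_units, hE, Nat.coprime_comm,
      Nat.Prime.coprime_iff_not_dvd Nat.prime_three]
    obtain ⟨m, rfl⟩ := hn
    have h2 : 2 ^ (2 * m + 1) % 3 = 2 := by
      rw [pow_succ, pow_mul, Nat.mul_mod, Nat.pow_mod]
      norm_num
    have h3 : 1 ≤ 2 ^ (2 * m + 1) := Nat.one_le_two_pow
    generalize 2 ^ (2 * m + 1) = w at h2 h3 ⊢
    omega
  obtain ⟨a, ha⟩ := (powCoprime h1).surjective (Units.mk0 u hu)
  refine ⟨a, ?_⟩
  have h2 := congrArg (fun v : Eˣ => (v : E)) ha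
  simpa [powCoprime] using h2

theorem exists_hexad {E : Type} [Field E] [Fintype E] [CharP E 2] {n : ℕ} (hn : Odd n)
    (hn5 : 5 ≤ n) (hE : Fintype.card E = 2 ^ n) :
    ∃ z : Fin 6 → E, ∑ i, z i = 0 ∧ ∑ i, z i ^ 3 = 0 ∧ ∑ i, z i ^ 5 ≠ 0 := by
  have h2 : (2 : E) = 0 := CharTwo.two_eq_zero
  obtain ⟨t, h0, h1, h3⟩ := exists_good (E := E) (by
    rw [hE]
    calc 10 < 2 ^ 5 := by norm_num
      _ ≤ 2 ^ n := Nat.pow_le_pow_right (by norm_num) hn5)
  obtain ⟨a, ha⟩ := exists_cube hn hE _ h0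
  refine ⟨![a, a * t, a * (1 + t), 1, t ^ 2, 1 + t ^ 2], ?_, ?_, ?_⟩
  · simp only [Fin.sum_univ_six, Matrix.cons_val_zero, Matrix.cons_val_one, Matrix.cons_val]
    linear_combination (a + a * t + 1 + t ^ 2) * h2
  · simp only [Fin.sum_univ_six, Matrix.cons_val_zero, Matrix.cons_val_one, Matrix.cons_val]
    linear_combination (t + t ^ 2) * ha + (a ^ 3 * (1 + t + t ^ 2 + t ^ 3) + (t ^ 2 + t) ^ 2 -
      t ^ 3 + (1 + t ^ 2 + t ^ 4 + t ^ 6)) * h2
  · simp only [Fin.sum_univ_six, Matrix.cons_val_zero, Matrix.cons_val_one, Matrix.cons_val]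
    have hv : t + t ^ 4 = (t ^ 2 + t) * (t ^ 2 + t + 1) := by
      linear_combination (-(t ^ 2 + t ^ 3)) * h2
    have hsum : a ^ 5 + (a * t) ^ 5 + (a * (1 + t)) ^ 5 + 1 ^ 5 + (t ^ 2) ^ 5 + (1 + t ^ 2) ^ 5 =
        (t + t ^ 4) * (a ^ 5 + (t + t ^ 4)) := by
      linear_combination (a ^ 5 * (1 + 2 * t + 5 * t ^ 2 + 5 * t ^ 3 + 2 * t ^ 4 + t ^ 5) +
        (1 + 2 * t ^ 2 + 5 * t ^ 4 + 5 * t ^ 6 + 2 * t ^ 8 + t ^ 10) - t ^ 5) * h2
    rw [hsum]
    refine mul_ne_zero ?_ ?_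
    · rw [hv]
      exact mul_ne_zero h0 h1
    · intro h4
      apply h3
      set u := t ^ 2 + t with hu
      have h5 : a ^ 5 = u * (u + 1) := by
        rw [hv] at h4
        linear_combination h4 - (u * (u + 1)) * h2
      have h6 : u ^ 5 = u ^ 3 * (u + 1) ^ 3 := by
        rw [← mul_pow, ← h5, ← ha]
        ring
      have h7 : u ^ 3 * (u ^ 2 + (u + 1) ^ 3) = 0 := by
        linear_combination h6 + u ^ 3 * (u + 1) ^ 3 * h2
      have h8 := (mul_eq_zero.1 h7).resolve_left (pow_ne_zero 3 h0)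
      linear_combination h8 - (2 * u ^ 2 + u) * h2

end Pool.Agent.LTCB
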