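import Pool.Agent.LTCB.Test

/-!
# The main tester
-/

set_option autoImplicit false

namespace Pool.Agent.LTCB

open Finset Pool.Agent.LTC

theorem card_mix {A B : Type} [Fintype A] [Fintype B] (P : A → Prop) (Q : B → Prop)
    [DecidablePred P] [DecidablePred Q] :
    (univ.filter fun ω : Bool × A × B => (ω.1 = true ∧ P ω.2.1) ∨ (ω.1 = false ∧ Q ω.2.2)).card =
      (univ.filter P).card * Fintype.card B + Fintype.card A * (univ.filter Q).card := by
  classical
  have h1 : (univ.filter fun ω : Bool × A × B =>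
      (ω.1 = true ∧ P ω.2.1) ∨ (ω.1 = false ∧ Q ω.2.2)) =
      ({true} ×ˢ (univ.filter P ×ˢ (univ : Finset B))) ∪
        ({false} ×ˢ ((univ : Finset A) ×ˢ univ.filter Q)) := by
    ext ω
    simp only [mem_filter, mem_univ, true_and, mem_union, mem_product, mem_singleton, and_true]
  rw [h1, card_union_of_disjoint]
  · simp only [card_product, card_singleton, card_univ, one_mul]
  · rw [disjoint_left]
    intro ω hω hω'
    have h2 := mem_singleton.1 (mem_product.1 hω).1
    have h3 := mem_singleton.1 (mem_product.1 hω').1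
    rw [h2] at h3
    exact absurd h3 (by decide)

section Quad

variable {K : Type} [Field K]

/-- the value of the relation -/
def RV (g : K → ZMod 2) (t x l : K) : ZMod 2 := g x + g (x + l) + g (x + t * l) + g (x + l + t * l)

theorem RV_eq_D (g : K → ZMod 2) (t x l : K) : RV g t x l = D l (D (t * l) g) x := by
  unfold RV D
  ring

/-- the degree is at most two -/
def Deg2 (g : K → ZMod 2) : Prop := ∀ a b c x, D a (D b (D c g)) x = 0

theorem Deg2.RV_zero {g : K → ZMod 2} (hg : Deg2 g) (t x l : K) : RV g t x l = RV g t 0 l := by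
  rw [RV_eq_D, RV_eq_D]
  have h := hg x l (t * l) 0
  rw [D, zero_add] at h
  exact zmod_eq_of_add _ _ h

theorem Deg2.RV_add {g : K → ZMod 2} (hg : Deg2 g) (s t l : K) :
    RV g (s + t) 0 l = RV g s 0 l + RV g t 0 l := by
  have h := hg l (s * l) (t * l) 0
  have h2 : (2 : ZMod 2) = 0 := rfl
  unfold D at h
  unfold RV
  have e1 : (0 : K) + (s + t) * l = 0 + s * l + t * l := by ring
  have e2 : (0 : K) + l + (s + t) * l = 0 + l + s * l + t * l := by ring
  rw [e1, e2]
  linear_combination h - (g 0 + g (0 + l) + g (0 + t * l) + g (0 + l + t * l) + g (0 + s * l) +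
    g (0 + l + s * l)) * h2

theorem Deg2.comp {g : K → ZMod 2} (hg : Deg2 g) (s : K) : Deg2 fun l => g (s * l) := by
  have h : ∀ (g : K → ZMod 2) (a : K), D a (fun l => g (s * l)) = fun l => D (s * a) g (s * l) := by
    intro g a
    funext l
    simp only [D, mul_add]
  intro a b c x
  rw [h, h, h]
  exact hg _ _ _ _

theorem Deg2.add {g h : K → ZMod 2} (hg : Deg2 g) (hh : Deg2 h) : Deg2 fun l => g l + h l := by
  have e : ∀ (g h : K → ZMod 2) (a : K), D a (fun l => g l + h l) =
      fun l => D a g l + D a h l := by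
    intro g h a
    funext l
    simp only [D]
    ring
  intro a b c x
  rw [e, e, e]
  simp only [hg a b c x, hh a b c x, add_zero]

theorem Deg2.const (z : ZMod 2) : Deg2 fun _ : K => z := by
  have e : ∀ (z : ZMod 2) (a : K), D a (fun _ => z) = fun _ => (0 : ZMod 2) := by
    intro z a
    funext l
    exact zmod_add_self z
  intro a b c x
  rw [e, e, e]

theorem Deg2.RV {g : K → ZMod 2} (hg : Deg2 g) (t : K) : Deg2 fun l => RV g t 0 l := by
  have h1 := (((Deg2.const (g 0)).add (hg.comp 1)).add (hg.comp t)).add (hg.comp (1 + t))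
  have h2 : (fun l => LTCB.RV g t 0 l) =
      fun l => g 0 + g (1 * l) + g (t * l) + g ((1 + t) * l) := by
    funext l
    simp only [LTCB.RV, zero_add, one_mul, add_mul]
  rw [h2]
  exact h1

end Quad

variable {K : Type} [Field K] [Fintype K] [CharP K 2]
  {C : Submodule (ZMod 2) (K → ZMod 2)}

open Classical in
/-- the number of the violated relations -/
noncomputable def MM (T : AddSubgroup K) (f : K → ZMod 2) : ℕ :=
  (univ.filter fun p : T × K × K => RV f p.1 p.2.1 p.2.2 ≠ 0).card

open Classical in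
theorem MM_lower (T : AddSubgroup K) {g : K → ZMod 2} (hg : Deg2 g)
    (hne : ∃ t ∈ T, ∃ x l, RV g t x l ≠ 0) :
    Fintype.card T * (Fintype.card K * Fintype.card K) ≤ 8 * MM T g := by
  let _ : Algebra (ZMod 2) K := ZMod.algebra K 2
  obtain ⟨t₀, ht₀, x₀, l₀, h₀⟩ := hne
  set Λ := univ.filter fun l => RV g t₀ 0 l ≠ 0 with hΛ
  have h1 : Fintype.card K ≤ 4 * Λ.card := card_of_deg_two (V := K) _ (hg.RV t₀)
    ⟨l₀, by rwa [← hg.RV_zero t₀ x₀ l₀]⟩
  have h2 : ∀ l ∈ Λ, Fintype.card T ≤ 2 * (univ.filter fun t : T => RV g t 0 l ≠ 0).card := by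
    intro l hl
    have hl' : RV g t₀ 0 l ≠ 0 := (mem_filter.1 hl).2
    have htot := card_filter_add_card_filter_not (s := (univ : Finset T))
      (fun t => RV g t 0 l = 0)
    rw [card_univ] at htot
    have h3 : (univ.filter fun t : T => RV g t 0 l = 0).card ≤
        (univ.filter fun t : T => ¬ RV g t 0 l = 0).card := by
      refine card_le_card_of_injOn (fun t => t + ⟨t₀, ht₀⟩) ?_ ?_
      · intro t ht
        simp only [coe_filter, mem_univ, true_and, Set.mem_ofPred_eq] at ht ⊢
        rw [AddSubgroup.coe_add, hg.RV_add, ht, zero_add]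
        exact hl'
      · intro x _ y _ hxy
        exact add_right_cancel hxy
    have h4 : (univ.filter fun t : T => RV g t 0 l ≠ 0).card =
      (univ.filter fun t : T => ¬ RV g t 0 l = 0).card := rfl
    omega
  have h3 : MM T g = ∑ p : K × K, (univ.filter fun t : T => RV g t 0 p.2 ≠ 0).card := by
    unfold MM
    rw [card_eq_sum_card_fiberwise (f := fun p : T × K × K => p.2) (t := univ)
      (fun _ _ => mem_univ _)]
    refine sum_congr rfl fun q _ => ?_
    refine card_bij' (fun p _ => p.1) (fun t _ => (t, q)) ?_ ?_ ?_ ?_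
    · rintro ⟨t, q'⟩ hp
      simp only [mem_filter, mem_univ, true_and] at hp ⊢
      obtain ⟨h1, rfl⟩ := hp
      rwa [← hg.RV_zero]
    · intro t ht
      simp only [mem_filter, mem_univ, true_and] at ht ⊢
      exact ⟨by rwa [hg.RV_zero], trivial⟩
    · rintro ⟨t, q'⟩ hp
      simp only [mem_filter, mem_univ, true_and] at hp
      obtain ⟨-, rfl⟩ := hp
      rfl
    · intro t _
      rfl
  have h4 : Fintype.card K * Λ.card * Fintype.card T ≤ 2 * MM T g := by
    calc Fintype.card K * Λ.card * Fintype.card T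
        = ∑ _p ∈ (univ : Finset K) ×ˢ Λ, Fintype.card T := by
          rw [sum_const, card_product, card_univ, smul_eq_mul]
      _ ≤ ∑ p ∈ (univ : Finset K) ×ˢ Λ, 2 * (univ.filter fun t : T => RV g t 0 p.2 ≠ 0).card :=
          sum_le_sum fun p hp => h2 _ (mem_product.1 hp).2
      _ ≤ ∑ p : K × K, 2 * (univ.filter fun t : T => RV g t 0 p.2 ≠ 0).card :=
          sum_le_sum_of_subset (subset_univ _)
      _ = 2 * MM T g := by rw [h3, mul_sum]
  calc Fintype.card T * (Fintype.card K * Fintype.card K)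
      ≤ Fintype.card T * (Fintype.card K * (4 * Λ.card)) :=
        Nat.mul_le_mul_left _ (Nat.mul_le_mul_left _ h1)
    _ = 4 * (Fintype.card K * Λ.card * Fintype.card T) := by ring
    _ ≤ 4 * (2 * MM T g) := Nat.mul_le_mul_left _ h4
    _ = 8 * MM T g := by ring

omit [CharP K 2] in
open Classical in
theorem MM_compare (T : AddSubgroup K) (f g : K → ZMod 2) :
    MM T g ≤ MM T f +
      4 * (Fintype.card T * ((univ.filter fun x => f x ≠ g x).card * Fintype.card K)) := by
  set A := univ.filter fun x => f x ≠ g x with hA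
  have h1 : ∀ φ : T → K → K, (univ.filter fun p : T × K × K =>
      p.2.1 + φ p.1 p.2.2 ∈ A).card = Fintype.card T * (A.card * Fintype.card K) := by
    intro φ
    have : Fintype.card T * (A.card * Fintype.card K) =
        ((univ : Finset T) ×ˢ (A ×ˢ (univ : Finset K))).card := by
      rw [card_product, card_product, card_univ, card_univ]
    rw [this]
    refine card_bij' (fun p _ => (p.1, p.2.1 + φ p.1 p.2.2, p.2.2))
      (fun p _ => (p.1, p.2.1 - φ p.1 p.2.2, p.2.2)) ?_ ?_ ?_ ?_
    · intro p hp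
      simpa using hp
    · intro p hp
      simpa using hp
    · intro p _
      simp
    · intro p _
      simp
  have hsub : (univ.filter fun p : T × K × K => RV g p.1 p.2.1 p.2.2 ≠ 0) ⊆
      (univ.filter fun p : T × K × K => RV f p.1 p.2.1 p.2.2 ≠ 0) ∪
      ((univ.filter fun p : T × K × K => p.2.1 + 0 ∈ A) ∪
      ((univ.filter fun p : T × K × K => p.2.1 + p.2.2 ∈ A) ∪
      ((univ.filter fun p : T × K × K => p.2.1 + p.1 * p.2.2 ∈ A) ∪
      (univ.filter fun p : T × K × K => p.2.1 + (p.2.2 + p.1 * p.2.2) ∈ A)))) := by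
    intro p hp
    simp only [mem_union, mem_filter, mem_univ, true_and, add_zero, hA] at hp ⊢
    by_contra hcon
    simp only [not_or, not_not, ← add_assoc] at hcon
    obtain ⟨e1, e2, e3, e4, e5⟩ := hcon
    apply hp
    rw [← e1]
    unfold RV
    rw [e2, e3, e4, e5]
  have h2 := card_le_card hsub
  have h3 := h2.trans (card_union_le _ _)
  have h4 := h3.trans (Nat.add_le_add_left (card_union_le _ _) _)
  have h5 := h4.trans (Nat.add_le_add_left (Nat.add_le_add_left (card_union_le _ _) _) _)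
  have h6 := h5.trans (Nat.add_le_add_left (Nat.add_le_add_left
    (Nat.add_le_add_left (card_union_le _ _) _) _) _)
  rw [h1 (fun _ _ => 0), h1 (fun _ l => l), h1 (fun t l => t * l), h1 (fun t l => l + t * l)] at h6
  unfold MM
  omega

theorem exists_not_rel (hC : AffineInvariant C) (h1 : (fun _ => 1) ∈ C) (h : ¬ C ≤ consts K)
    (hspan : Submodule.span (ZMod 2) (lowWeightDual C 5) = dualCode C) {g : K → ZMod 2}
    (hg : g ∉ C) : ∃ t ∈ TT C, ∃ x l, RV g t x l ≠ 0 := by
  by_contra hcon
  push Not at hcon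
  exact hg (mem_of_rel hC h1 h hspan fun t ht x l => hcon t ht x l)

/-- the positions of the cube -/
def cubeList (p : K × K × K × K) : List K :=
  [p.1, p.1 + p.2.2.2, p.1 + p.2.2.1, p.1 + p.2.2.1 + p.2.2.2, p.1 + p.2.1,
    p.1 + p.2.1 + p.2.2.2, p.1 + p.2.1 + p.2.2.1, p.1 + p.2.1 + p.2.2.1 + p.2.2.2]

/-- the positions of the relation -/
def relList {T : AddSubgroup K} (p : T × K × K) : List K :=
  [p.2.1, p.2.1 + p.2.2, p.2.1 + p.1 * p.2.2, p.2.1 + p.2.2 + p.1 * p.2.2]

theorem testable_main (hC : AffineInvariant C) (h1 : (fun _ => 1) ∈ C) (h : ¬ C ≤ consts K)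
    (hspan : Submodule.span (ZMod 2) (lowWeightDual C 5) = dualCode C) {t₀ : K}
    (ht : t₀ ∈ TT C) (ht0 : t₀ ≠ 0) (ht1 : t₀ ≠ 1) : LocallyTestable C 8 (1 / 512) := by
  classical
  let _ : Algebra (ZMod 2) K := ZMod.algebra K 2
  have hcube : ∀ (f : K → ZMod 2) (p : K × K × K × K),
      ((cubeList p).map f).sum = cube f p.1 p.2 := by
    intro f p
    obtain ⟨x, a, b, c⟩ := p
    rw [cube_expand]
    simp only [cubeList, List.map_cons, List.map_nil, List.sum_cons, List.sum_nil]
    ring
  have hrel : ∀ (f : K → ZMod 2) (p : TT C × K × K),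
      ((relList p).map f).sum = RV f p.1 p.2.1 p.2.2 := by
    intro f p
    simp only [relList, List.map_cons, List.map_nil, List.sum_cons, List.sum_nil, RV]
    ring
  refine locallyTestable_of_lists C (Ω := Bool × (K × K × K × K) × (TT C × K × K))
    (fun ω => if ω.1 = true then cubeList ω.2.1 else relList ω.2.2) 8 _ ?_ ?_ ?_
  · intro ω
    split_ifs
    · simp [cubeList]
    · simp [relList]
  · intro r hr ω
    split_ifs
    · rw [hcube]
      obtain ⟨x, a, b, c⟩ := ω.2.1
      rw [cube_expand]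
      exact cube_of_rel ht0 ht1 (ht r hr) x a b c
    · rw [hrel]
      exact ω.2.2.1.2 r hr _ _
  · intro f
    have hset : (univ.filter fun ω : Bool × (K × K × K × K) × (TT C × K × K) =>
        ((if ω.1 = true then cubeList ω.2.1 else relList ω.2.2).map f).sum ≠ 0) =
        univ.filter fun ω : Bool × (K × K × K × K) × (TT C × K × K) =>
          (ω.1 = true ∧ cube f ω.2.1.1 ω.2.1.2 ≠ 0) ∨
            (ω.1 = false ∧ RV f ω.2.2.1 ω.2.2.2.1 ω.2.2.2.2 ≠ 0) := by
      ext ⟨b, p, r⟩
      cases b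
      · simp [hrel]
      · simp [hcube]
    rw [hset, card_mix (A := K × K × K × K) (B := TT C × K × K)
      (fun p => cube f p.1 p.2 ≠ 0) (fun p => RV f p.1 p.2.1 p.2.2 ≠ 0)]
    have hb : (univ.filter fun p : K × K × K × K => cube f p.1 p.2 ≠ 0).card = bad f := rfl
    have hm : (univ.filter fun p : TT C × K × K => RV f p.1 p.2.1 p.2.2 ≠ 0).card =
      MM (TT C) f := rfl
    rw [hb, hm]
    simp only [Fintype.card_prod, Fintype.card_bool]
    set n := Fintype.card K with hn
    set τ := Fintype.card (TT C) with hτ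
    have hn0 : 0 < n := Fintype.card_pos
    have hτ0 : 0 < τ := Fintype.card_pos
    have hnR : (0 : ℝ) < n := by exact_mod_cast hn0
    have hτR : (0 : ℝ) < τ := by exact_mod_cast hτ0
    set δ := relDist C f with hδ
    have hδ0 : 0 ≤ δ := relDist_nonneg _ _
    have hδ1 : δ ≤ 1 := relDist_le_one _ _
    push_cast
    have hN0 : (0 : ℝ) ≤ bad f := Nat.cast_nonneg _
    have hM0 : (0 : ℝ) ≤ MM (TT C) f := Nat.cast_nonneg _
    have hnn : (0 : ℝ) < (n : ℝ) ^ 2 * τ := by positivity
    by_cases hcase : 231 * bad f < n ^ 4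
    · set g := maj f with hg
      have hgcube : ∀ x a, cube g x a = 0 := cube_maj f hcase
      have hgdeg : Deg2 g := by
        intro a b c x
        rw [← cube_eq_D]
        exact hgcube x (a, b, c)
      have hA := card_ne_maj f
      rw [← hg, ← hn] at hA
      set A := (univ.filter fun x => f x ≠ g x).card with hAdef
      have hAR : (A : ℝ) * (n : ℝ) ^ 3 ≤ 2 * (bad f : ℝ) := by exact_mod_cast hA
      by_cases hgC : g ∈ C
      · have h2 := relDist_le_card C f g hgC
        rw [← hAdef, ← hn, ← hδ] at h2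
        have h3 : δ * (n : ℝ) ^ 4 ≤ 2 * (bad f : ℝ) := by
          calc δ * (n : ℝ) ^ 4 = (δ * n) * (n : ℝ) ^ 3 := by ring
            _ ≤ A * (n : ℝ) ^ 3 := mul_le_mul_of_nonneg_right h2 (by positivity)
            _ ≤ _ := hAR
        have h4 : δ * (n : ℝ) ^ 4 * ((n : ℝ) ^ 2 * τ) ≤ 2 * (bad f : ℝ) * ((n : ℝ) ^ 2 * τ) :=
          mul_le_mul_of_nonneg_right h3 hnn.le
        have h5 : 0 ≤ (bad f : ℝ) * ((n : ℝ) ^ 2 * τ) := mul_nonneg hN0 hnn.le
        have h6 : 0 ≤ (n : ℝ) ^ 4 * MM (TT C) f := by positivity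
        nlinarith
      · have h2 := MM_lower (TT C) hgdeg (exists_not_rel hC h1 h hspan hgC)
        have h3 := MM_compare (TT C) f g
        rw [← hn, ← hτ] at h2 h3
        rw [← hAdef] at h3
        have h2R : (τ : ℝ) * ((n : ℝ) * n) ≤ 8 * (MM (TT C) g : ℝ) := by exact_mod_cast h2
        have h3R : (MM (TT C) g : ℝ) ≤ MM (TT C) f + 4 * (τ * (A * n)) := by exact_mod_cast h3
        have h4R : 231 * (bad f : ℝ) ≤ (n : ℝ) ^ 4 := by exact_mod_cast hcase.le
        -- A * n ≤ 2 n ^ 2 / 231
        have h5 : 231 * ((A : ℝ) * n) ≤ 2 * (n : ℝ) ^ 2 := by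
          have h6 : 231 * ((A : ℝ) * n) * (n : ℝ) ^ 2 ≤ 2 * (n : ℝ) ^ 2 * (n : ℝ) ^ 2 := by
            calc 231 * ((A : ℝ) * n) * (n : ℝ) ^ 2 = 231 * ((A : ℝ) * (n : ℝ) ^ 3) := by ring
              _ ≤ 231 * (2 * (bad f : ℝ)) := by linarith
              _ = 2 * (231 * (bad f : ℝ)) := by ring
              _ ≤ 2 * (n : ℝ) ^ 4 := by linarith
              _ = _ := by ring
          exact le_of_mul_le_mul_right h6 (by positivity)
        have h6 : (τ : ℝ) * (n : ℝ) ^ 2 ≤ 16 * (MM (TT C) f : ℝ) := by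
          have h7 : 231 * ((τ : ℝ) * (A * n)) ≤ 2 * (τ * (n : ℝ) ^ 2) := by
            calc 231 * ((τ : ℝ) * (A * n)) = τ * (231 * (A * n)) := by ring
              _ ≤ τ * (2 * (n : ℝ) ^ 2) := mul_le_mul_of_nonneg_left h5 hτR.le
              _ = _ := by ring
          nlinarith
        have h7 : (τ : ℝ) * (n : ℝ) ^ 2 * (n : ℝ) ^ 4 ≤ 16 * (MM (TT C) f : ℝ) * (n : ℝ) ^ 4 :=
          mul_le_mul_of_nonneg_right h6 (by positivity)
        have h8 : 0 ≤ (bad f : ℝ) * (τ * (n * n)) := by positivity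
        have h9 : δ * ((n : ℝ) ^ 2 * τ * (n : ℝ) ^ 4) ≤ 1 * ((n : ℝ) ^ 2 * τ * (n : ℝ) ^ 4) :=
          mul_le_mul_of_nonneg_right hδ1 (by positivity)
        have h10 : 0 ≤ (MM (TT C) f : ℝ) * (n : ℝ) ^ 4 := by positivity
        nlinarith
    · have h2 : (n : ℝ) ^ 4 ≤ 231 * (bad f : ℝ) := by exact_mod_cast not_lt.1 hcase
      have h3 : (n : ℝ) ^ 4 * ((n : ℝ) ^ 2 * τ) ≤ 231 * (bad f : ℝ) * ((n : ℝ) ^ 2 * τ) :=
        mul_le_mul_of_nonneg_right h2 hnn.le
      have h4 : δ * ((n : ℝ) ^ 4 * ((n : ℝ) ^ 2 * τ)) ≤ 1 * ((n : ℝ) ^ 4 * ((n : ℝ) ^ 2 * τ)) :=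
        mul_le_mul_of_nonneg_right hδ1 (by positivity)
      have h5 : 0 ≤ (n : ℝ) ^ 4 * MM (TT C) f := by positivity
      have h6 : 0 ≤ (bad f : ℝ) * ((n : ℝ) ^ 2 * τ) := mul_nonneg hN0 hnn.le
      nlinarith

/-- Affine invariant codes with dual words of weight at most five. -/
theorem testable_five (hC : AffineInvariant C)
    (hspan : Submodule.span (ZMod 2) (lowWeightDual C 5) = dualCode C) :
    LocallyTestable C 8 (1 / 512) := by
  by_cases hbot : C = ⊥
  · rw [hbot]
    exact testable_bot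
  have h1 := one_mem hC hbot
  by_cases hc : C ≤ consts K
  · have h2 : C = consts K := by
      refine le_antisymm hc ?_
      rintro f ⟨c, hf⟩
      have h3 : f = c • fun _ => 1 := by
        funext x
        rw [hf, Pi.smul_apply, smul_eq_mul, mul_one]
      rw [h3]
      exact C.smul_mem c h1
    rw [h2]
    exact testable_consts
  by_cases hT : ∃ t ∈ TT C, t ≠ 0 ∧ t ≠ 1
  · obtain ⟨t, ht, ht0, ht1⟩ := hT
    exact testable_main hC h1 hc hspan ht ht0 ht1
  · push Not at hT
    refine locallyTestable_of_relDist_eq_zero C _ _ fun r => ?_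
    refine relDist_eq_zero_of_mem C r (mem_of_rel hC h1 hc hspan ?_)
    intro t ht x l
    by_cases ht0 : t = 0
    · subst ht0
      have h2 := zmod_add_self (r x + r (x + l))
      simp only [Rel, zero_mul, add_zero]
      linear_combination h2
    · rw [hT t ht ht0]
      have h2 := zmod_add_self (r x + r (x + l))
      have h3 : x + l + l = x := by rw [add_assoc, CharTwo.add_self_eq_zero, add_zero]
      simp only [Rel, one_mul, h3]
      linear_combination h2

end Pool.Agent.LTCB
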