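import Pool.Agent.LTC.BoxDual
import Pool.Agent.LTCB.Hexad

/-!
# Binary affine invariant codes with dual words of weight six

The codes are the annihilators of the words of weight at most six in the space of the words `u` with
`∑ u x * w x * w' x = 0` for all `w`, `w'` in the box space.
-/

set_option autoImplicit false

namespace Pool.Agent.LTCB

open Finset Pool.Agent.LTC

section General

variable {ι F : Type} [Fintype ι] [Field F]

/-- A word which is orthogonal to all dual words with support in `I` agrees on `I` with a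
codeword. -/
theorem exists_agree (C : Submodule F (ι → F)) (I : Finset ι) (r : ι → F)
    (h : ∀ u ∈ dualCode C, (∀ i, i ∉ I → u i = 0) → ∑ i, u i * r i = 0) :
    ∃ d ∈ C, ∀ i ∈ I, d i = r i := by
  classical
  let Z : Submodule F (ι → F) :=
    { carrier := {w | ∀ i ∈ I, w i = 0}
      zero_mem' := fun _ _ => rfl
      add_mem' := by
        intro a b ha hb i hi
        rw [Pi.add_apply, ha i hi, hb i hi, add_zero]
      smul_mem' := by
        intro c a ha i hi
        rw [Pi.smul_apply, ha i hi, smul_zero] }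
  have hr : r ∈ C ⊔ Z := by
    rw [← dualCode_dualCode (C ⊔ Z)]
    intro u hu
    have h1 : u ∈ dualCode C := dualCode_anti le_sup_left hu
    have h2 : u ∈ dualCode Z := dualCode_anti le_sup_right hu
    have h3 := h u h1 (by
      intro i hi
      have h4 := h2 (Pi.single i 1) (by
        intro j hj
        have : j ≠ i := by
          rintro rfl
          exact hi hj
        exact Pi.single_eq_of_ne this 1)
      rw [Finset.sum_eq_single i] at h4
      · simpa using h4
      · intro j _ hj
        rw [Pi.single_eq_of_ne hj, mul_zero]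
      · intro h5
        exact absurd (mem_univ i) h5)
    rw [← h3]
    exact sum_congr rfl fun i _ => mul_comm _ _
  obtain ⟨d, hd, z, hz, hdz⟩ := Submodule.mem_sup.1 hr
  refine ⟨d, hd, fun i hi => ?_⟩
  rw [← hdz, Pi.add_apply, hz i hi, add_zero]

/-- As `not_locallyTestable_of_family`, with an arbitrary distance. -/
theorem not_locallyTestable_of_family' [Fintype F] [DecidableEq F] (C : Submodule F (ι → F))
    (q : ℕ) (s δ : ℝ) (hs : 0 < s) (t : ℕ) (r : Fin t → ι → F)
    (hdist : ∀ k, ∀ c ∈ C, δ ≤ relDist C (c + r k))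
    (hr : ∀ I : Finset ι, I.card ≤ q →
      ∃ S : Finset (Fin t), S.card ≤ q ∧ ∀ k, k ∉ S → ∃ d ∈ C, ∀ i ∈ I, d i = r k i)
    (ht : (q : ℝ) < s * δ * t) : ¬ LocallyTestable C q s := by
  rintro ⟨T, hq, hC, hsound⟩
  let _ : Fintype C := Fintype.ofFinite C
  have h1 := sum_rejectProb_le C T q hq hC t r hr
  have h2 : ∑ k : Fin t, ∑ c : C, s * δ ≤
      ∑ k, ∑ c : C, T.rejectProb ((c : ι → F) + r k) := by
    refine Finset.sum_le_sum fun k _ => Finset.sum_le_sum fun c _ => ?_
    exact (mul_le_mul_of_nonneg_left (hdist k c c.2) hs.le).trans (hsound _)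
  have h3 := h2.trans h1
  simp only [Finset.sum_const, Finset.card_univ, Fintype.card_fin, nsmul_eq_mul] at h3
  have hcard : (0 : ℝ) < Fintype.card C := by exact_mod_cast Fintype.card_pos
  nlinarith

end General

variable {t : ℕ} {n e : Fin t → ℕ} {K : Type} [Field K] [CharP K 2]

section Box

theorem box_affine {w : K → K} (hw : w ∈ box n (fun x : K => x) Finset.univ) (l y : K) :
    (fun x => w (y + l * x)) ∈ box n (fun x : K => x) Finset.univ := by
  have : Fact (Nat.Prime 2) := ⟨Nat.prime_two⟩
  induction hw using Submodule.span_induction with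
  | mem w hw =>
    rcases hw with rfl | ⟨j, hj, rfl⟩
    · exact one_mem_box _ _
    · have h1 : (fun x : K => (y + l * x) ^ 2 ^ j) =
          (l ^ 2 ^ j) • (fun x : K => x ^ 2 ^ j) + (y ^ 2 ^ j) • fun _ => (1 : K) := by
        funext x
        simp only [Pi.add_apply, Pi.smul_apply, smul_eq_mul, mul_one]
        rw [← mul_pow, add_comm]
        exact add_pow_char_pow ..
      rw [h1]
      exact Submodule.add_mem _ (Submodule.smul_mem _ _ (pow_mem_box _ hj))
        (Submodule.smul_mem _ _ (one_mem_box _ _))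
  | zero => exact Submodule.zero_mem _
  | add w w' _ _ h h' => exact Submodule.add_mem _ h h'
  | smul c w _ h => exact Submodule.smul_mem _ c h

variable [Fintype K] [Algebra (ZMod 2) K]

/-- the words which annihilate all products of two words of the box space -/
def DD (n : Fin t → ℕ) (K : Type) [Field K] [Fintype K] [Algebra (ZMod 2) K] :
    Submodule (ZMod 2) (K → ZMod 2) where
  carrier := {u | ∀ w ∈ box n (fun x : K => x) Finset.univ,
    ∀ w' ∈ box n (fun x : K => x) Finset.univ, ∑ x, u x • (w x * w' x) = 0}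
  zero_mem' := by
    intro w _ w' _
    simp
  add_mem' := by
    intro a b ha hb w hw w' hw'
    simp only [Pi.add_apply, add_smul, sum_add_distrib, ha w hw w' hw', hb w hw w' hw', add_zero]
  smul_mem' := by
    intro c a ha w hw w' hw'
    simp only [Pi.smul_apply, smul_eq_mul, mul_smul, ← smul_sum, ha w hw w' hw', smul_zero]

/-- the dual words of weight at most six -/
def W6 (n : Fin t → ℕ) (K : Type) [Field K] [Fintype K] [Algebra (ZMod 2) K] :
    Set (K → ZMod 2) := {u | u ∈ DD n K ∧ hammingNorm u ≤ 6}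

/-- the code -/
def code6 (n : Fin t → ℕ) (K : Type) [Field K] [Fintype K] [Algebra (ZMod 2) K] :
    Submodule (ZMod 2) (K → ZMod 2) := dualCode (Submodule.span (ZMod 2) (W6 n K))

omit [CharP K 2] in
theorem dualCode_code6 : dualCode (code6 n K) = Submodule.span (ZMod 2) (W6 n K) :=
  dualCode_dualCode _

omit [CharP K 2] in
theorem span_code6 : Submodule.span (ZMod 2) (lowWeightDual (code6 n K) 6) =
    dualCode (code6 n K) := by
  refine le_antisymm (Submodule.span_le.2 fun u hu => hu.1) ?_
  rw [dualCode_code6]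
  refine Submodule.span_mono fun u hu => ⟨?_, hu.2⟩
  rw [dualCode_code6]
  exact Submodule.subset_span hu

omit [CharP K 2] in
theorem dual_le_DD {u : K → ZMod 2} (hu : u ∈ dualCode (code6 n K)) : u ∈ DD n K := by
  rw [dualCode_code6] at hu
  exact (Submodule.span_le.2 fun u (hu : u ∈ W6 n K) => hu.1) hu

omit [CharP K 2] in
theorem mem_code6 {f : K → ZMod 2} (hf : ∀ u ∈ W6 n K, ∑ x, u x * f x = 0) : f ∈ code6 n K :=
  mem_of_span_eq (C := code6 n K) dualCode_code6.symm hf

omit [CharP K 2] in
theorem sum_code6 {f : K → ZMod 2} (hf : f ∈ code6 n K) {u : K → ZMod 2} (hu : u ∈ W6 n K) :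
    ∑ x, u x * f x = 0 := by
  have h1 : u ∈ dualCode (code6 n K) := by
    rw [dualCode_code6]
    exact Submodule.subset_span hu
  exact h1 f hf

theorem affine_DD {u : K → ZMod 2} (hu : u ∈ DD n K) {a : K} (ha : a ≠ 0) (b : K) :
    (fun y => u (a⁻¹ * (y - b))) ∈ DD n K := by
  intro w hw w' hw'
  have h1 := hu _ (box_affine hw a b) _ (box_affine hw' a b)
  rw [← h1]
  let π : K ≃ K :=
    { toFun := fun x => b + a * x
      invFun := fun y => a⁻¹ * (y - b)
      left_inv := fun x => by
        change a⁻¹ * (b + a * x - b) = x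
        rw [add_sub_cancel_left, inv_mul_cancel_left₀ ha]
      right_inv := fun y => by
        change b + a * (a⁻¹ * (y - b)) = y
        rw [mul_inv_cancel_left₀ ha, add_sub_cancel] }
  rw [← Equiv.sum_comp π]
  refine sum_congr rfl fun x _ => ?_
  change u (a⁻¹ * (b + a * x - b)) • _ = _
  rw [add_sub_cancel_left, inv_mul_cancel_left₀ ha]
  rfl

/-- the code is invariant under all maps `x ↦ a * x + b` -/
theorem affine_code6 {f : K → ZMod 2} (hf : f ∈ code6 n K) {a : K} (ha : a ≠ 0) (b : K) :
    (fun x => f (a * x + b)) ∈ code6 n K := by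
  refine mem_code6 fun u hu => ?_
  let π : K ≃ K :=
    { toFun := fun x => b + a * x
      invFun := fun y => a⁻¹ * (y - b)
      left_inv := fun x => by
        change a⁻¹ * (b + a * x - b) = x
        rw [add_sub_cancel_left, inv_mul_cancel_left₀ ha]
      right_inv := fun y => by
        change b + a * (a⁻¹ * (y - b)) = y
        rw [mul_inv_cancel_left₀ ha, add_sub_cancel] }
  have h1 : (fun y => u (a⁻¹ * (y - b))) ∈ W6 n K := by
    refine ⟨affine_DD hu.1 ha b, ?_⟩
    refine le_trans (le_of_eq ?_) hu.2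
    unfold hammingNorm
    refine card_bij' (fun y _ => π.symm y) (fun x _ => π x) ?_ ?_ ?_ ?_
    · intro y hy
      simp only [mem_filter, mem_univ, true_and] at hy ⊢
      exact hy
    · intro x hx
      simp only [mem_filter, mem_univ, true_and] at hx ⊢
      have : a⁻¹ * (π x - b) = x := π.left_inv x
      rwa [this]
    · intro y _
      exact π.right_inv y
    · intro x _
      exact π.left_inv x
  have h2 := sum_code6 hf h1
  rw [← Equiv.sum_comp π] at h2
  rw [← h2]
  refine sum_congr rfl fun x _ => ?_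
  have h3 : a⁻¹ * (π x - b) = x := π.left_inv x
  rw [h3]
  change _ = u x * f (b + a * x)
  rw [add_comm b]

omit [CharP K 2] in
/-- words with few positions which are orthogonal to the products are dual words -/
theorem word_mem_W6 {p : Fin 6 → K} (h : ∀ w ∈ box n (fun x : K => x) Finset.univ,
    ∀ w' ∈ box n (fun x : K => x) Finset.univ, ∑ j, w (p j) * w' (p j) = 0) :
    word p (fun _ => (1 : ZMod 2)) ∈ W6 n K := by
  classical
  refine ⟨fun w hw w' hw' => ?_, hammingNorm_word_le _ _⟩
  rw [← h w hw w' hw']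
  unfold word
  simp only [Finset.sum_apply, Finset.sum_smul]
  rw [Finset.sum_comm]
  refine Finset.sum_congr rfl fun k _ => ?_
  rw [Finset.sum_eq_single (p k)]
  · simp
  · intro i _ hi
    rw [Pi.single_eq_of_ne hi, zero_smul]
  · intro h; exact absurd (Finset.mem_univ _) h

end Box

section Hexad

omit [CharP K 2] in
theorem box_bil {J : Type} [Fintype J] (p : J → K) (h00 : ∑ _j : J, (1 : K) = 0)
    (h0 : ∀ a ∈ expSet n (Finset.univ : Finset (Fin t)), ∑ j, p j ^ 2 ^ a = 0)
    (hab : ∀ a ∈ expSet n (Finset.univ : Finset (Fin t)),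
      ∀ b ∈ expSet n (Finset.univ : Finset (Fin t)), ∑ j, p j ^ 2 ^ a * p j ^ 2 ^ b = 0) :
    ∀ w ∈ box n (fun x : K => x) Finset.univ, ∀ w' ∈ box n (fun x : K => x) Finset.univ,
      ∑ j, w (p j) * w' (p j) = 0 := by
  intro w hw
  induction hw using Submodule.span_induction with
  | mem w hw =>
    intro w' hw'
    induction hw' using Submodule.span_induction with
    | mem w' hw' =>
      rcases hw with rfl | ⟨a, ha, rfl⟩
      · rcases hw' with rfl | ⟨b, hb, rfl⟩
        · simpa using h00
        · simpa using h0 b hb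
      · rcases hw' with rfl | ⟨b, hb, rfl⟩
        · simpa using h0 a ha
        · exact hab a ha b hb
    | zero => simp
    | add w₁ w₂ _ _ h₁ h₂ =>
      simp only [Pi.add_apply, mul_add, Finset.sum_add_distrib, h₁, h₂, add_zero]
    | smul c w₁ _ h₁ =>
      have : ∀ j, w (p j) * (c • w₁) (p j) = c * (w (p j) * w₁ (p j)) := by
        intro j
        simp only [Pi.smul_apply, smul_eq_mul]
        ring
      simp only [this, ← Finset.mul_sum, h₁, mul_zero]
  | zero =>
    intro w' _
    simp
  | add w₁ w₂ _ _ h₁ h₂ =>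
    intro w' hw'
    simp only [Pi.add_apply, add_mul, Finset.sum_add_distrib, h₁ w' hw', h₂ w' hw', add_zero]
  | smul c w₁ _ h₁ =>
    intro w' hw'
    simp only [Pi.smul_apply, smul_eq_mul, mul_assoc, ← Finset.mul_sum, h₁ w' hw', mul_zero]

variable [Fintype K] [Algebra (ZMod 2) K]

omit [Fintype K] in
/-- the six points are orthogonal to the products of the words of the box space -/
theorem hexad_box {k : Fin t} {E : Type} [Field E] [Finite E] [Algebra (ZMod 2) E]
    (φ : E →ₐ[ZMod 2] K) (hE : Module.finrank (ZMod 2) E = n k)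
    {z : Fin 6 → E} (h1 : ∑ i, z i = 0) (h3 : ∑ i, z i ^ 3 = 0) :
    ∀ w ∈ box n (fun x : K => x) Finset.univ, ∀ w' ∈ box n (fun x : K => x) Finset.univ,
      ∑ j, w (φ (z j)) * w' (φ (z j)) = 0 := by
  have : Fact (Nat.Prime 2) := ⟨Nat.prime_two⟩
  have h2 : (2 : K) = 0 := CharTwo.two_eq_zero
  have hpow : ∀ a ∈ expSet n (Finset.univ : Finset (Fin t)),
      (∀ x : E, φ x ^ 2 ^ a = φ x) ∨ ∀ x : E, φ x ^ 2 ^ a = φ x ^ 2 := by
    intro a ha
    have h4 : ∀ x : E, φ x ^ 2 ^ a = φ (x ^ 2 ^ (a % n k)) := by
      intro x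
      rw [← hE, pow_mod_eq, map_pow]
    rcases ha.1 k (Finset.mem_univ k) with h5 | h5
    · left
      intro x
      rw [h4, h5, pow_zero, pow_one]
    · right
      intro x
      rw [h4, h5, pow_one, map_pow]
  have e1 : ∑ j, φ (z j) = 0 := by rw [← map_sum, h1, map_zero]
  have e2 : ∑ j, φ (z j) ^ 2 = 0 := by
    rw [← sum_pow_char 2, e1]
    simp
  have e3 : ∑ j, φ (z j) ^ 3 = 0 := by
    have : ∑ j, φ (z j) ^ 3 = φ (∑ j, z j ^ 3) := by
      rw [map_sum]
      exact Finset.sum_congr rfl fun j _ => (map_pow φ _ _).symm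
    rw [this, h3, map_zero]
  have e4 : ∑ j, φ (z j) ^ 4 = 0 := by
    have : ∑ j, φ (z j) ^ 4 = (∑ j, φ (z j) ^ 2) ^ 2 := by
      rw [sum_pow_char 2]
      exact Finset.sum_congr rfl fun j _ => by ring
    rw [this, e2]
    simp
  refine box_bil (fun j => φ (z j)) ?_ ?_ ?_
  · simp only [Finset.sum_const, Finset.card_univ, Fintype.card_fin, nsmul_eq_mul, mul_one]
    push_cast
    linear_combination 3 * h2
  · intro a ha
    rcases hpow a ha with h | h
    · simp only [h, e1]
    · simp only [h, e2]
  · intro a ha b hb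
    rcases hpow a ha with h | h <;> rcases hpow b hb with h' | h'
    · simp only [h]
      rw [← e2]
      exact Finset.sum_congr rfl fun j _ => by rw [h']; ring
    · simp only [h]
      rw [← e3]
      exact Finset.sum_congr rfl fun j _ => by rw [h']; ring
    · simp only [h]
      rw [← e3]
      exact Finset.sum_congr rfl fun j _ => by rw [h']; ring
    · simp only [h]
      rw [← e4]
      exact Finset.sum_congr rfl fun j _ => by rw [h']; ring

/-- the words at the points `y + l * φ (z j)` are dual words -/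
theorem hexad_word {k : Fin t} {E : Type} [Field E] [Finite E] [Algebra (ZMod 2) E]
    (φ : E →ₐ[ZMod 2] K) (hE : Module.finrank (ZMod 2) E = n k)
    {z : Fin 6 → E} (h1 : ∑ i, z i = 0) (h3 : ∑ i, z i ^ 3 = 0) (y l : K) :
    word (fun j => y + l * φ (z j)) (fun _ => (1 : ZMod 2)) ∈ W6 n K :=
  word_mem_W6 fun _ hw _ hw' => hexad_box φ hE h1 h3 _ (box_affine hw l y) _
    (box_affine hw' l y)

end Hexad

end Pool.Agent.LTCB
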