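import Pool.Agent.LTC.PosBasic
import Pool.Agent.LTCB.Cls

/-!
# The testers
-/

set_option autoImplicit false

namespace Pool.Agent.LTCB

open Finset Pool.Agent.LTC

section ListTester

variable {ι : Type}

/-- read the positions in the list and accept if the sum of the values and `a` is zero -/
def sumTree : List ι → ZMod 2 → DecisionTree ι (ZMod 2)
  | [], a => DecisionTree.leaf (decide (a = 0))
  | i :: l, a => DecisionTree.read i fun b => sumTree l (a + b)

theorem sumTree_run (l : List ι) (a : ZMod 2) (r : ι → ZMod 2) :
    (sumTree l a).run r = decide (a + (l.map r).sum = 0) := by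
  induction l generalizing a with
  | nil => simp [sumTree, DecisionTree.run]
  | cons i l ih =>
    rw [sumTree, DecisionTree.run, ih, List.map_cons, List.sum_cons, add_assoc]

theorem sumTree_reads (l : List ι) (a : ZMod 2) (q : ℕ) (h : l.length ≤ q) :
    (sumTree l a).ReadsAtMost q := by
  induction l generalizing a q with
  | nil => simp [sumTree, DecisionTree.ReadsAtMost]
  | cons i l ih =>
    cases q with
    | zero => simp at h
    | succ q =>
      rw [sumTree, DecisionTree.ReadsAtMost]
      intro b
      exact ih _ _ (by simpa using h)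

/-- the uniform tester with the lists of positions `L ω` -/
noncomputable def listTester {Ω : Type} [Fintype Ω] [Nonempty Ω] (L : Ω → List ι) :
    Tester ι (ZMod 2) where
  Ω := Ω
  fin := inferInstance
  prob := fun _ => 1 / (Fintype.card Ω : ℝ)
  prob_nonneg := fun _ => by positivity
  prob_sum := by
    rw [sum_const, card_univ, nsmul_eq_mul, mul_one_div_cancel]
    exact_mod_cast Fintype.card_ne_zero
  tree := fun ω => sumTree (L ω) 0

theorem listTester_rejectProb {Ω : Type} [Fintype Ω] [Nonempty Ω] (L : Ω → List ι)
    (r : ι → ZMod 2) : (listTester L).rejectProb r =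
      ((univ.filter fun ω => ((L ω).map r).sum ≠ 0).card : ℝ) / (Fintype.card Ω : ℝ) := by
  simp only [Tester.rejectProb, listTester, sumTree_run, zero_add, decide_eq_false_iff_not]
  rw [← sum_filter, sum_const, nsmul_eq_mul, mul_one_div]
  rfl

theorem locallyTestable_of_lists [Fintype ι] (C : Submodule (ZMod 2) (ι → ZMod 2)) {Ω : Type}
    [Fintype Ω] [Nonempty Ω] (L : Ω → List ι) (q : ℕ) (s : ℝ) (hL : ∀ ω, (L ω).length ≤ q)
    (hcomp : ∀ r ∈ C, ∀ ω, ((L ω).map r).sum = 0)
    (hsound : ∀ r : ι → ZMod 2, s * relDist C r * (Fintype.card Ω : ℝ) ≤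
      ((univ.filter fun ω => ((L ω).map r).sum ≠ 0).card : ℝ)) : LocallyTestable C q s := by
  refine ⟨listTester L, fun ω => sumTree_reads _ _ _ (hL ω), ?_, ?_⟩
  · intro r hr
    rw [listTester_rejectProb]
    have : (univ.filter fun ω => ((L ω).map r).sum ≠ 0) = ∅ :=
      filter_eq_empty_iff.2 fun ω _ h => h (hcomp r hr ω)
    rw [this]
    simp
  · intro r
    rw [listTester_rejectProb, le_div_iff₀]
    · exact hsound r
    · exact_mod_cast Fintype.card_pos

end ListTester

variable {K : Type} [Field K] [Fintype K] [CharP K 2]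
  {C : Submodule (ZMod 2) (K → ZMod 2)}

theorem relDist_le_card (C : Submodule (ZMod 2) (K → ZMod 2)) (r c : K → ZMod 2) (hc : c ∈ C) :
    relDist C r * (Fintype.card K : ℝ) ≤ ((univ.filter fun x => r x ≠ c x).card : ℝ) := by
  have h := relDist_le C r c hc
  have hK : (0 : ℝ) < Fintype.card K := by exact_mod_cast Fintype.card_pos
  rw [le_div_iff₀ hK] at h
  exact h

/-- the zero code -/
theorem testable_bot : LocallyTestable (⊥ : Submodule (ZMod 2) (K → ZMod 2)) 8 (1 / 512) := by
  refine locallyTestable_of_lists _ (Ω := K) (fun x => [x]) 8 _ (fun _ => by simp) ?_ ?_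
  · intro r hr x
    rw [(Submodule.mem_bot _).1 hr]
    simp
  · intro r
    have h1 := relDist_le_card ⊥ r 0 (Submodule.zero_mem _)
    have h2 := relDist_nonneg (⊥ : Submodule (ZMod 2) (K → ZMod 2)) r
    have h3 : (0 : ℝ) ≤ Fintype.card K := Nat.cast_nonneg _
    simp only [List.map_cons, List.map_nil, List.sum_cons, List.sum_nil, add_zero]
    simp only [Pi.zero_apply] at h1
    have h4 : 0 ≤ relDist (⊥ : Submodule (ZMod 2) (K → ZMod 2)) r * (Fintype.card K : ℝ) :=
      mul_nonneg h2 h3
    nlinarith

/-- the code of the constant words -/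
theorem testable_consts : LocallyTestable (consts K) 8 (1 / 512) := by
  refine locallyTestable_of_lists _ (Ω := K × K) (fun p => [p.1, p.2]) 8 _ (fun _ => by simp)
    ?_ ?_
  · rintro r ⟨c, hc⟩ p
    simp only [List.map_cons, List.map_nil, List.sum_cons, List.sum_nil, add_zero, hc]
    exact zmod_add_self c
  · intro r
    set A := univ.filter fun x => r x ≠ 0 with hA
    set B := univ.filter fun x => r x ≠ 1 with hB
    have h0 := relDist_le_card (consts K) r (fun _ => 0) ⟨0, fun _ => rfl⟩
    have h1 := relDist_le_card (consts K) r (fun _ => 1) ⟨1, fun _ => rfl⟩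
    rw [← hA] at h0
    rw [← hB] at h1
    have hAB : A.card + B.card = Fintype.card K := by
      have h2 := card_filter_add_card_filter_not (s := (univ : Finset K)) (fun x => r x ≠ 0)
      have h3 : (univ.filter fun x => ¬ r x ≠ 0) = B := by
        rw [hB]
        ext x
        simp only [mem_filter, mem_univ, true_and]
        rcases zmod_zero_or_one (r x) with h | h <;> simp [h]
      rw [h3, card_univ] at h2
      exact h2
    have hsub : A ×ˢ B ⊆ univ.filter fun p : K × K =>
        ((List.map r [p.1, p.2]).sum ≠ 0) := by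
      rintro ⟨x, y⟩ hp
      obtain ⟨hx, hy⟩ := mem_product.1 hp
      have hx' : r x ≠ 0 := (mem_filter.1 hx).2
      have hy' : r y ≠ 1 := (mem_filter.1 hy).2
      simp only [mem_filter, mem_univ, true_and, List.map_cons, List.map_nil, List.sum_cons,
        List.sum_nil, add_zero]
      rcases zmod_zero_or_one (r x) with h | h
      · exact absurd h hx'
      · rcases zmod_zero_or_one (r y) with h' | h'
        · rw [h, h']
          decide
        · exact absurd h' hy'
    have h2 := card_le_card hsub
    rw [card_product] at h2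
    have h3 : ((A.card * B.card : ℕ) : ℝ) ≤ ((univ.filter fun p : K × K =>
        ((List.map r [p.1, p.2]).sum ≠ 0)).card : ℝ) := by exact_mod_cast h2
    refine le_trans ?_ h3
    rw [Fintype.card_prod]
    push_cast
    set a := (A.card : ℝ) with ha
    set b := (B.card : ℝ) with hb
    have hn : (Fintype.card K : ℝ) = a + b := by
      rw [ha, hb, ← hAB]
      push_cast
      ring
    rw [hn] at h0 h1 ⊢
    have ha0 : 0 ≤ a := Nat.cast_nonneg _
    have hb0 : 0 ≤ b := Nat.cast_nonneg _
    set d := relDist (consts K) r with hd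
    have h4 : 0 ≤ d := relDist_nonneg _ _
    have h5 : d * (a + b) * (a + b) ≤ 2 * (a * b) := by
      rcases le_total a b with h | h
      · calc d * (a + b) * (a + b) ≤ a * (a + b) :=
              mul_le_mul_of_nonneg_right h0 (by linarith)
          _ ≤ a * (2 * b) := mul_le_mul_of_nonneg_left (by linarith) ha0
          _ = _ := by ring
      · calc d * (a + b) * (a + b) ≤ b * (a + b) :=
              mul_le_mul_of_nonneg_right h1 (by linarith)
          _ ≤ b * (2 * a) := mul_le_mul_of_nonneg_left (by linarith) hb0
          _ = _ := by ring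
    have h6 : 0 ≤ a * b := mul_nonneg ha0 hb0
    nlinarith

end Pool.Agent.LTCB
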